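import Mathlib

/-!
# Torelli project, part D: lattice preliminaries

Abstract abelian group `V` with an alternating form `om`.
-/

namespace Pool.Agent.Torelli.D

variable {V : Type*} [AddCommGroup V] (om : V →+ V →+ ℤ)

/-- `v` is primitive (unimodular) for `om`. -/
def prim (v : V) : Prop := ∃ w, om v w = 1

/-- hyperbolic edge -/
def E1 (v w : V) : Prop := om v w = 1 ∨ om v w = -1

/-- isotropic unimodular pair -/
def E0 (v w : V) : Prop :=
  om v w = 0 ∧ ∃ v' w', om v v' = 1 ∧ om w v' = 0 ∧ om w w' = 1 ∧ om v w' = 0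

section bil

theorem om_add_left (x y z : V) : om (x + y) z = om x z + om y z := by
  rw [map_add, AddMonoidHom.add_apply]

theorem om_add_right (x y z : V) : om x (y + z) = om x y + om x z := map_add _ _ _

theorem om_sub_left (x y z : V) : om (x - y) z = om x z - om y z := by
  rw [map_sub, AddMonoidHom.sub_apply]

theorem om_sub_right (x y z : V) : om x (y - z) = om x y - om x z := map_sub _ _ _

theorem om_neg_left (x z : V) : om (-x) z = - om x z := by
  rw [map_neg, AddMonoidHom.neg_apply]

theorem om_neg_right (x z : V) : om x (-z) = - om x z := map_neg _ _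

theorem om_smul_left (c : ℤ) (x z : V) : om (c • x) z = c * om x z := by
  rw [map_zsmul]
  rfl

theorem om_smul_right (c : ℤ) (x z : V) : om x (c • z) = c * om x z := by
  rw [map_zsmul, smul_eq_mul]

end bil

variable {om}

theorem om_swap (alt : ∀ v, om v v = 0) (x y : V) : om x y = - om y x := by
  have h := alt (x + y)
  rw [om_add_left, om_add_right, om_add_right, alt x, alt y] at h
  linarith

theorem E1.symm (alt : ∀ v, om v v = 0) {v w : V} (h : E1 om v w) : E1 om w v := by
  unfold E1 at *
  rw [om_swap alt w v]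
  omega

theorem E1.prim_left {v w : V} (h : E1 om v w) : prim om v := by
  rcases h with h | h
  · exact ⟨w, h⟩
  · exact ⟨-w, by rw [om_neg_right, h]; norm_num⟩

theorem E1.prim_right (alt : ∀ v, om v v = 0) {v w : V} (h : E1 om v w) : prim om w :=
  (h.symm alt).prim_left

theorem E1.neg_right {v w : V} (h : E1 om v w) : E1 om v (-w) := by
  unfold E1 at *
  rw [om_neg_right]
  omega

theorem E1.neg_left {v w : V} (h : E1 om v w) : E1 om (-v) w := by
  unfold E1 at *
  rw [om_neg_left]
  omega

theorem prim.neg {v : V} (h : prim om v) : prim om (-v) := by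
  obtain ⟨w, hw⟩ := h
  exact ⟨-w, by rw [om_neg_left, om_neg_right, hw]; norm_num⟩

theorem E0.prim_left {v w : V} (h : E0 om v w) : prim om v := by
  obtain ⟨-, v', w', h1, -⟩ := h
  exact ⟨v', h1⟩

theorem E0.prim_right {v w : V} (h : E0 om v w) : prim om w := by
  obtain ⟨-, v', w', -, -, h1, -⟩ := h
  exact ⟨w', h1⟩

theorem E0.symm (alt : ∀ v, om v v = 0) {v w : V} (h : E0 om v w) : E0 om w v := by
  obtain ⟨h0, v', w', h1, h2, h3, h4⟩ := h
  exact ⟨by rw [om_swap alt, h0, neg_zero], w', v', h3, h4, h1, h2⟩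

theorem E0.neg_right {v w : V} (h : E0 om v w) : E0 om v (-w) := by
  obtain ⟨h0, v', w', h1, h2, h3, h4⟩ := h
  refine ⟨by rw [om_neg_right, h0, neg_zero], v', -w', h1, by rw [om_neg_left, h2, neg_zero], ?_, ?_⟩
  · rw [om_neg_left, om_neg_right, h3]; norm_num
  · rw [om_neg_right, h4, neg_zero]

theorem E0.neg_left {v w : V} (h : E0 om v w) : E0 om (-v) w := by
  obtain ⟨h0, v', w', h1, h2, h3, h4⟩ := h
  refine ⟨by rw [om_neg_left, h0, neg_zero], -v', w', ?_, by rw [om_neg_right, h2, neg_zero], h3, ?_⟩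
  · rw [om_neg_left, om_neg_right, h1]; norm_num
  · rw [om_neg_left, h4, neg_zero]

/-- If `om u v = ±1` and `w` is primitive and orthogonal to `u, v` then `(v, w)` is a unimodular
isotropic pair. -/
theorem E0.of_E1 (alt : ∀ v, om v v = 0) {u v w : V} (h : E1 om v u) (hv : om v w = 0)
    (hu : om u w = 0) (hw : prim om w) : E0 om v w := by
  obtain ⟨z, hz⟩ := hw
  have hwu : om w u = 0 := by rw [om_swap alt, hu, neg_zero]
  have hwv : om w v = 0 := by rw [om_swap alt, hv, neg_zero]
  rcases h with h | h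
  · refine ⟨hv, u, z - (om v z) • u, h, hwu, ?_, ?_⟩
    · rw [om_sub_right, om_smul_right, hz, hwu]; ring
    · rw [om_sub_right, om_smul_right, h]; ring
  · refine ⟨hv, -u, z + (om v z) • u, ?_, ?_, ?_, ?_⟩
    · rw [om_neg_right, h]; norm_num
    · rw [om_neg_right, hwu, neg_zero]
    · rw [om_add_right, om_smul_right, hz, hwu]; ring
    · rw [om_add_right, om_smul_right, h]; ring

/-- an isotropic unimodular pair stays so after adding multiples. -/
theorem E0.add_smul {v w : V} (alt : ∀ v, om v v = 0) (h : E0 om v w) (k : ℤ) :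
    E0 om v (w + k • v) := by
  obtain ⟨h0, v', w', h1, h2, h3, h4⟩ := h
  refine ⟨?_, v' - k • w', w', ?_, ?_, ?_, h4⟩
  · rw [om_add_right, om_smul_right, h0, alt]; ring
  · rw [om_sub_right, om_smul_right, h1, h4]; ring
  · rw [om_sub_right, om_smul_right, om_add_left, om_add_left, om_smul_left, om_smul_left, h1, h2,
      h3, h4]
    ring
  · rw [om_add_left, om_smul_left, h3, h4]; ring

/-- `E0 v t` iff `t` is orthogonal to `v` and primitive inside `v^⊥`. -/
theorem E0_iff (alt : ∀ v, om v v = 0) {v t : V} (hv : prim om v) :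
    E0 om v t ↔ om v t = 0 ∧ ∃ z, om v z = 0 ∧ om t z = 1 := by
  constructor
  · rintro ⟨h0, v', w', h1, h2, h3, h4⟩
    exact ⟨h0, w', h4, h3⟩
  · rintro ⟨h0, z, hz, hz'⟩
    obtain ⟨v', hv'⟩ := hv
    refine ⟨h0, v' - (om t v') • z, z, ?_, ?_, hz', hz⟩
    · rw [om_sub_right, om_smul_right, hv', hz]; ring
    · rw [om_sub_right, om_smul_right, hz']; ring

/-- reduction of the height by shifting along `v`. -/
theorem exists_shift (e v : V) (hv : om e v ≠ 0) (u : V) :
    ∃ k : ℤ, |om e (u + k • v)| < |om e v| := by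
  refine ⟨-(om e u / om e v), ?_⟩
  have h : om e (u + (-(om e u / om e v)) • v) = om e u % om e v := by
    rw [om_add_right, om_smul_right]
    have := Int.emod_add_mul_ediv (om e u) (om e v)
    linarith
  rw [h, abs_of_nonneg (Int.emod_nonneg _ hv)]
  exact Int.emod_lt_abs _ hv

end Pool.Agent.Torelli.D
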