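import Pool.Agent.Torelli.D.Basic

/-!
# Torelli project, part D: connectivity of the graph of primitive vectors

For every subgroup `W` of a group with an alternating form, the vectors of `W` which are
primitive inside `W` are connected by hyperbolic edges.
-/

namespace Pool.Agent.Torelli.D

variable {V : Type*} [AddCommGroup V] {om : V →+ V →+ ℤ}

/-- a hyperbolic edge inside `W` -/
def E1In (om : V →+ V →+ ℤ) (W : AddSubgroup V) (x y : V) : Prop := x ∈ W ∧ y ∈ W ∧ E1 om x y

theorem exists_not_dvd (alt : ∀ v, om v v = 0) (W : AddSubgroup V) {v v' : V}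
    (hv : ∃ z ∈ W, om v z = 1) (hv' : ∃ z ∈ W, om v' z = 1)
    (hn : (om v v').natAbs ≠ 1) : ∃ w ∈ W, om v w = 1 ∧ ¬ om v v' ∣ om w v' := by
  obtain ⟨w0, hw0, h0⟩ := hv
  obtain ⟨y, hy, h1⟩ := hv'
  by_cases hd : om v v' ∣ om w0 v'
  · refine ⟨w0 + (y - (om v y) • w0), W.add_mem hw0 (W.sub_mem hy (W.zsmul_mem hw0 _)), ?_, ?_⟩
    · rw [om_add_right, om_sub_right, om_smul_right, h0]; ring
    · rw [om_add_left, om_sub_left, om_smul_left, om_swap alt y v', h1]
      intro hd'
      have : om v v' ∣ 1 := by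
        have h2 : (1 : ℤ) = (om w0 v' + (-1 - om v y * om w0 v')) * (-1)
            + om w0 v' * (1 - om v y) := by ring
        rw [h2]
        exact dvd_add (hd'.mul_right _) (hd.mul_right _)
      exact hn (Int.isUnit_iff_natAbs_eq.mp (isUnit_of_dvd_one this))
  · exact ⟨w0, hw0, h0, hd⟩

theorem conn_aux (alt : ∀ v, om v v = 0) (W : AddSubgroup V) (v' : V) (hW' : v' ∈ W)
    (hv' : ∃ z ∈ W, om v' z = 1) (n : ℕ) : ∀ v ∈ W, (∃ z ∈ W, om v z = 1) →
      (om v v').natAbs = n → n ≠ 0 → Relation.ReflTransGen (E1In om W) v v' := by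
  induction n using Nat.strong_induction_on with
  | _ n ih =>
    intro v hvW hv hn hn0
    by_cases h1 : n = 1
    · refine Relation.ReflTransGen.single ⟨hvW, hW', ?_⟩
      unfold E1
      omega
    · obtain ⟨w, hw, hvw, hnd⟩ := exists_not_dvd alt W hv hv' (by rw [hn]; exact h1)
      set m := om v v' with hm
      have hm0 : m ≠ 0 := by
        intro h
        rw [h] at hn
        exact hn0 hn.symm
      set u := w + (-(om w v' / m)) • v with hu
      have huv : om v u = 1 := by
        rw [hu, om_add_right, om_smul_right, hvw, alt]; ring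
      have huv' : om u v' = om w v' % m := by
        rw [hu, om_add_left, om_smul_left, ← hm]
        have := Int.emod_add_mul_ediv (om w v') m
        linarith
      have hlt := Int.emod_lt_abs (om w v') hm0
      have hge := Int.emod_nonneg (om w v') hm0
      have hne : om w v' % m ≠ 0 := fun h => hnd (Int.dvd_of_emod_eq_zero h)
      have huW : u ∈ W := W.add_mem hw (W.zsmul_mem hvW _)
      have hn' : (m.natAbs : ℤ) = |m| := Int.natCast_natAbs m
      refine Relation.ReflTransGen.head (b := u) ⟨hvW, huW, Or.inl huv⟩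
        (ih (om u v').natAbs ?_ u huW ⟨-v, W.neg_mem hvW, ?_⟩ rfl ?_)
      · rw [huv']
        omega
      · rw [om_neg_right, om_swap alt, huv]; norm_num
      · rw [huv']
        omega

/-- connectivity of the graph of primitive vectors of `W`. -/
theorem conn (alt : ∀ v, om v v = 0) (W : AddSubgroup V) {v v' : V} (hvW : v ∈ W) (hW' : v' ∈ W)
    (hv : ∃ z ∈ W, om v z = 1) (hv' : ∃ z ∈ W, om v' z = 1) :
    Relation.ReflTransGen (E1In om W) v v' := by
  by_cases h0 : om v v' = 0
  · obtain ⟨w, hw, hvw, hnd⟩ := exists_not_dvd alt W hv hv' (by rw [h0]; norm_num)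
    refine Relation.ReflTransGen.head (b := w) ⟨hvW, hw, Or.inl hvw⟩
      (conn_aux alt W v' hW' hv' (om w v').natAbs w hw ⟨-v, W.neg_mem hvW, ?_⟩ rfl ?_)
    · rw [om_neg_right, om_swap alt, hvw]; norm_num
    · rw [h0] at hnd
      intro h
      apply hnd
      rw [Int.natAbs_eq_zero.mp h]
  · exact conn_aux alt W v' hW' hv' _ v hvW hv rfl (by omega)

end Pool.Agent.Torelli.D
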