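import Pool.Agent.Torelli.D.Basic

/-!
# Torelli project, part D: content of vectors orthogonal to `e`
-/

namespace Pool.Agent.Torelli.D

variable {V : Type*} [AddCommGroup V] {om : V →+ V →+ ℤ}

/-- unimodularity of the form -/
def Unim (om : V →+ V →+ ℤ) : Prop := ∀ (x : V) (c : ℤ), (∀ w, c ∣ om x w) → ∃ y, x = c • y

theorem Unim.eq_zero (U : Unim om) {x : V} (h : ∀ w, om x w = 0) : x = 0 := by
  obtain ⟨y, hy⟩ := U x 0 (fun w => by rw [h w])
  rw [hy, zero_smul]

theorem Unim.torsion (U : Unim om) {c : ℤ} (hc : c ≠ 0) {x : V} (h : c • x = 0) : x = 0 := by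
  apply U.eq_zero
  intro w
  have : c * om x w = 0 := by rw [← om_smul_left, h, map_zero, AddMonoidHom.zero_apply]
  rcases mul_eq_zero.mp this with h | h
  · exact absurd h hc
  · exact h

/-- every nonzero vector is a multiple of a primitive one. -/
theorem Unim.content (U : Unim om) {x : V} (hx : x ≠ 0) :
    ∃ (c : ℤ) (y : V), c ≠ 0 ∧ x = c • y ∧ prim om y := by
  obtain ⟨c, hc⟩ := Int.subgroup_cyclic (om x).range
  have hdvd : ∀ w, c ∣ om x w := by
    intro w
    have : om x w ∈ (om x).range := ⟨w, rfl⟩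
    rw [hc, AddSubgroup.mem_closure_singleton] at this
    obtain ⟨n, hn⟩ := this
    exact ⟨n, by rw [← hn, smul_eq_mul, mul_comm]⟩
  have hmem : c ∈ (om x).range := by
    rw [hc]
    exact AddSubgroup.subset_closure rfl
  obtain ⟨w0, hw0⟩ := hmem
  obtain ⟨y, hy⟩ := U x c hdvd
  have hc0 : c ≠ 0 := by
    intro h
    rw [h, zero_smul] at hy
    exact hx hy
  refine ⟨c, y, hc0, hy, w0, ?_⟩
  have h1 : c * om y w0 = c := by rw [← om_smul_left, ← hy, hw0]
  exact mul_left_cancel₀ hc0 (by rw [h1, mul_one])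

/-- change of basis of an isotropic plane -/
theorem E0.basis (alt : ∀ v, om v v = 0) {v w : V} (h : E0 om v w) {a b c d : ℤ}
    (hdet : a * d - b * c = 1) : E0 om (a • v + b • w) (c • v + d • w) := by
  obtain ⟨h0, v', w', h1, h2, h3, h4⟩ := h
  have h0' : om w v = 0 := by rw [om_swap alt, h0, neg_zero]
  refine ⟨?_, d • v' - c • w', (-b) • v' + a • w', ?_, ?_, ?_, ?_⟩
  · simp only [om_add_left, om_add_right, om_smul_left, om_smul_right, alt, h0, h0']
    ring
  · simp only [om_add_left, om_sub_right, om_smul_left, om_smul_right, h1, h2, h3, h4]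
    linarith
  · simp only [om_add_left, om_sub_right, om_smul_left, om_smul_right, h1, h2, h3, h4]
    ring
  · simp only [om_add_left, om_add_right, om_smul_left, om_smul_right, h1, h2, h3, h4]
    linarith
  · simp only [om_add_left, om_add_right, om_smul_left, om_smul_right, h1, h2, h3, h4]
    ring

/-- the content of a vector orthogonal to `e`, modulo `e`. -/
noncomputable def cont (om : V →+ V →+ ℤ) (e v : V) : ℕ :=
  sInf {n : ℕ | n ≠ 0 ∧ ∃ z, om e z = 0 ∧ (om v z).natAbs = n}

theorem cont_neg (e v : V) : cont om e (-v) = cont om e v := by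
  unfold cont
  congr 1
  ext n
  simp only [Set.mem_setOf_eq, om_neg_left, Int.natAbs_neg]

theorem cont_eq {e y : V} (h : E0 om e y) (a c : ℤ) :
    cont om e (a • e + c • y) = c.natAbs := by
  obtain ⟨h0, e', y', h1, h2, h3, h4⟩ := h
  unfold cont
  by_cases hc : c = 0
  · have : {n : ℕ | n ≠ 0 ∧ ∃ z, om e z = 0 ∧ (om (a • e + c • y) z).natAbs = n} = ∅ := by
      ext n
      simp only [Set.mem_setOf_eq, Set.mem_empty_iff_false, iff_false, not_and]
      rintro hn ⟨z, hz, hz'⟩
      apply hn
      rw [← hz', om_add_left, om_smul_left, om_smul_left, hz, hc]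
      simp
    rw [this, Nat.sInf_empty, hc, Int.natAbs_zero]
  · apply le_antisymm
    · apply Nat.sInf_le
      refine ⟨by omega, y', h4, ?_⟩
      rw [om_add_left, om_smul_left, om_smul_left, h4, h3]
      simp
    · have hne : {n : ℕ | n ≠ 0 ∧ ∃ z, om e z = 0 ∧ (om (a • e + c • y) z).natAbs = n}.Nonempty := by
        refine ⟨c.natAbs, by omega, y', h4, ?_⟩
        rw [om_add_left, om_smul_left, om_smul_left, h4, h3]
        simp
      obtain ⟨hn, z, hz, hz'⟩ := Nat.sInf_mem hne
      rw [← hz'] at hn ⊢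
      rw [om_add_left, om_smul_left, om_smul_left, hz, mul_zero, zero_add] at hn ⊢
      rw [Int.natAbs_mul] at hn ⊢
      have : 1 ≤ (om y z).natAbs := by
        rcases Nat.eq_zero_or_pos (om y z).natAbs with h | h
        · rw [h] at hn; simp at hn
        · exact h
      exact Nat.le_mul_of_pos_right _ this

theorem cont_self (alt : ∀ v, om v v = 0) (e : V) : cont om e e = 0 := by
  unfold cont
  have : {n : ℕ | n ≠ 0 ∧ ∃ z, om e z = 0 ∧ (om e z).natAbs = n} = ∅ := by
    ext n
    simp only [Set.mem_setOf_eq, Set.mem_empty_iff_false, iff_false, not_and]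
    rintro hn ⟨z, hz, hz'⟩
    apply hn
    rw [← hz', hz]
    rfl
  rw [this, Nat.sInf_empty]

/-- if `v` is hyperbolic with a vector orthogonal to `e`, then the content is one. -/
theorem cont_one {e v w : V} (hw : om e w = 0) (h : E1 om v w) : cont om e v = 1 := by
  unfold cont
  have hmem : 1 ∈ {n : ℕ | n ≠ 0 ∧ ∃ z, om e z = 0 ∧ (om v z).natAbs = n} := by
    refine ⟨one_ne_zero, w, hw, ?_⟩
    unfold E1 at h
    omega
  apply le_antisymm
  · exact Nat.sInf_le hmem
  · obtain ⟨hn, -⟩ := Nat.sInf_mem ⟨1, hmem⟩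
    omega

/-- normal form of a vector orthogonal to `e`. -/
theorem exists_normal (alt : ∀ v, om v v = 0) (U : Unim om) {e v : V} (he : prim om e)
    (hv : prim om v) (hev : om e v = 0) (h1 : v ≠ e) (h2 : v ≠ -e) :
    ∃ (a c : ℤ) (y : V), c ≠ 0 ∧ v = a • e + c • y ∧ E0 om e y ∧ IsCoprime a c := by
  obtain ⟨f, hf⟩ := he
  have hne : v - (om v f) • e ≠ 0 := by
    intro h
    have hv' : v = (om v f) • e := sub_eq_zero.mp h
    obtain ⟨z, hz⟩ := hv
    rw [hv', om_smul_left] at hz
    have hu : IsUnit (om v f) := IsUnit.of_mul_eq_one _ hz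
    rcases Int.isUnit_iff.mp hu with h | h
    · rw [h, one_smul] at hv'; exact h1 hv'
    · rw [h, neg_smul, one_smul] at hv'; exact h2 hv'
  obtain ⟨c, y, hc, hy, hyp⟩ := U.content hne
  have hey : om e y = 0 := by
    have : c * om e y = 0 := by
      rw [← om_smul_right, ← hy, om_sub_right, om_smul_right, hev, alt]; ring
    exact (mul_eq_zero.mp this).resolve_left hc
  have hfy : om f y = 0 := by
    have : c * om f y = 0 := by
      rw [← om_smul_right, ← hy, om_sub_right, om_smul_right, om_swap alt f v, om_swap alt f e, hf]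
      ring
    exact (mul_eq_zero.mp this).resolve_left hc
  have hve : v = (om v f) • e + c • y := by rw [← hy]; abel
  refine ⟨om v f, c, y, hc, hve, E0.of_E1 alt (Or.inl hf) hey hfy hyp, ?_⟩
  obtain ⟨z, hz⟩ := hv
  rw [hve, om_add_left, om_smul_left, om_smul_left] at hz
  exact ⟨om e z, om y z, by linarith⟩

/-- an isotropic plane containing `e`. -/
theorem plane (alt : ∀ v, om v v = 0) {e v w : V} (he : prim om e) (h : E0 om v w) {a b : ℤ}
    (hab : e = a • v + b • w) :
    IsCoprime a b ∧ cont om e v = b.natAbs ∧ cont om e w = a.natAbs := by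
  have hco : IsCoprime a b := by
    obtain ⟨f, hf⟩ := he
    rw [hab, om_add_left, om_smul_left, om_smul_left] at hf
    exact ⟨om v f, om w f, by linarith⟩
  obtain ⟨s, t, hst⟩ := id hco
  have hdet : a * s - b * (-t) = 1 := by linarith
  have hE := h.basis alt hdet
  rw [← hab] at hE
  refine ⟨hco, ?_, ?_⟩
  · have hv : v = s • e + (-b) • ((-t) • v + s • w) := by
      rw [hab]
      have : s • (a • v + b • w) + (-b) • ((-t) • v + s • w) = (s * a + t * b) • v := by
        module
      rw [this, hst, one_smul]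
    rw [hv, ← hv] 
    have := cont_eq hE s (-b)
    rw [← hv] at this
    rw [this, Int.natAbs_neg]
  · have hw : w = t • e + a • ((-t) • v + s • w) := by
      rw [hab]
      have : t • (a • v + b • w) + a • ((-t) • v + s • w) = (s * a + t * b) • w := by
        module
      rw [this, hst, one_smul]
    have := cont_eq hE t a
    rw [← hw] at this
    rw [this]

end Pool.Agent.Torelli.D
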