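import Pool.Agent.Torelli.D.Tri

/-!
# Torelli project, part D: isotropic adjacency from hyperbolic adjacency
-/

namespace Pool.Agent.Torelli.D

variable {V X : Type*} [AddCommGroup V] {om : V →+ V →+ ℤ}

/-- every neighbour of `x` over `t` is a neighbour of `y`. -/
def LiftData.Via (L : LiftData om X) (x y : X) (t : V) : Prop :=
  ∀ s, L.ov s t → L.adj x s → L.adj s y

theorem LiftData.via_step (L : LiftData om X) (alt : ∀ v, om v v = 0) {x y : X} {v w t t' : V}
    (hx : L.ov x v) (hy : L.ov y w) (h1 : E1 om v t) (h2 : E1 om w t) (h1' : E1 om v t')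
    (h2' : E1 om w t') (htt : E1 om t t') (h : L.Via x y t) : L.Via x y t' := by
  intro s' hs' hxs'
  obtain ⟨s, ⟨hs, hxs⟩, -⟩ := L.lift hx h1
  have hsy := h s hs hxs
  have hss : L.adj s s' := L.t hs hx hs' (h1.symm alt) h1' htt (L.symm hxs) hxs'
  exact L.t hs' hs hy (htt.symm alt) (h2.symm alt) (h2'.symm alt) (L.symm hss) hsy

theorem LiftData.via_neg (L : LiftData om X) {x y : X} {t : V}
    (h : L.Via x y t) : L.Via x y (-t) := by
  intro s hs hxs
  have := L.ov_neg hs
  rw [neg_neg] at this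
  exact h s this hxs

theorem LiftData.via_shift (L : LiftData om X) (alt : ∀ v, om v v = 0) {x y : X} {v w t : V}
    (hx : L.ov x v) (hy : L.ov y w) (hwv : om w v = 0) (h1 : E1 om v t) (h2 : E1 om w t)
    (h : L.Via x y t) (k : ℤ) : L.Via x y (t + k • v) := by
  have hE1 : ∀ k : ℤ, E1 om v (t + k • v) := by
    intro k
    unfold E1 at *
    rw [om_add_right, om_smul_right, alt]
    simpa using h1
  have hE2 : ∀ k : ℤ, E1 om w (t + k • v) := by
    intro k
    unfold E1 at *
    rw [om_add_right, om_smul_right, hwv]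
    simpa using h2
  have hE3 : ∀ k : ℤ, E1 om (t + k • v) (t + (k + 1) • v) := by
    intro k
    have h1' := h1.symm alt
    unfold E1 at *
    simp only [om_add_left, om_add_right, om_smul_left, om_smul_right, alt]
    rw [om_swap alt v t]
    rcases h1' with h | h <;> rw [h]
    · left; ring
    · right; ring
  induction k using Int.induction_on with
  | zero => simpa using h
  | succ i ih => exact L.via_step alt hx hy (hE1 _) (hE2 _) (hE1 _) (hE2 _) (hE3 _) ih
  | pred i ih =>
    have h3 := hE3 (-(i : ℤ) - 1)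
    rw [sub_add_cancel] at h3
    exact L.via_step alt hx hy (hE1 _) (hE2 _) (hE1 _) (hE2 _) (h3.symm alt) ih

theorem LiftData.via_of_one (L : LiftData om X) (alt : ∀ v, om v v = 0) {x y : X} {v w t t' : V}
    (hx : L.ov x v) (hy : L.ov y w) (hwv : om w v = 0) (h1 : om v t = 1) (h2 : E1 om w t)
    (h1' : om v t' = 1) (h2' : E1 om w t') (h : L.Via x y t) : L.Via x y t' := by
  set c := om t t' - 1 with hc
  have hE1 : E1 om v (t' + c • v) := by
    left
    rw [om_add_right, om_smul_right, alt, h1']; ring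
  have hE2 : E1 om w (t' + c • v) := by
    unfold E1 at *
    rw [om_add_right, om_smul_right, hwv]
    simpa using h2'
  have hE3 : E1 om t (t' + c • v) := by
    left
    rw [om_add_right, om_smul_right, om_swap alt t v, h1, hc]; ring
  have h3 := L.via_step alt hx hy (Or.inl h1) h2 hE1 hE2 hE3 h
  have h4 := L.via_shift alt hx hy hwv hE1 hE2 h3 (-c)
  have : t' + c • v + (-c) • v = t' := by module
  rwa [this] at h4

theorem LiftData.via_any (L : LiftData om X) (alt : ∀ v, om v v = 0) {x y : X} {v w t t' : V}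
    (hx : L.ov x v) (hy : L.ov y w) (hwv : om w v = 0) (h1 : E1 om v t) (h2 : E1 om w t)
    (h1' : E1 om v t') (h2' : E1 om w t') (h : L.Via x y t) : L.Via x y t' := by
  have key : ∀ {t t' : V}, om v t = 1 → E1 om w t → E1 om v t' → E1 om w t' → L.Via x y t →
      L.Via x y t' := by
    intro t t' h1 h2 h1' h2' h
    rcases h1' with h1' | h1'
    · exact L.via_of_one alt hx hy hwv h1 h2 h1' h2' h
    · have := L.via_neg (L.via_of_one alt hx hy hwv h1 h2 (t' := -t')
        (by rw [om_neg_right, h1']; norm_num) h2'.neg_right h)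
      rwa [neg_neg] at this
  rcases h1 with h1 | h1
  · exact key h1 h2 h1' h2' h
  · exact key (t := -t) (by rw [om_neg_right, h1]; norm_num) h2.neg_right h1' h2' (L.via_neg h)

/-- the derived lifted adjacency -/
def LiftData.A (L : LiftData om X) (v w : V) (x y : X) : Prop :=
  (E1 om v w ∧ L.adj x y) ∨
    (E0 om v w ∧ ∃ t s, L.ov s t ∧ E1 om v t ∧ E1 om w t ∧ L.adj x s ∧ L.adj s y)

theorem not_E0_of_E1 {v w : V} (h : E1 om v w) : ¬ E0 om v w := by
  intro h0
  have := h0.1
  unfold E1 at h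
  omega

theorem LiftData.A_E1 (L : LiftData om X) {v w : V} (h : E1 om v w) {x y : X} :
    L.A v w x y ↔ L.adj x y := by
  constructor
  · rintro (h' | h')
    · exact h'.2
    · exact absurd h'.1 (not_E0_of_E1 h)
  · intro h'
    exact Or.inl ⟨h, h'⟩

theorem LiftData.A_E0 (L : LiftData om X) {v w : V} (h : E0 om v w) {x y : X} :
    L.A v w x y ↔ ∃ t s, L.ov s t ∧ E1 om v t ∧ E1 om w t ∧ L.adj x s ∧ L.adj s y := by
  constructor
  · rintro (h' | h')
    · exact absurd h (not_E0_of_E1 h'.1)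
    · exact h'.2
  · intro h'
    exact Or.inr ⟨h, h'⟩

/-- any common neighbour works. -/
theorem LiftData.via_of_A (L : LiftData om X) (alt : ∀ v, om v v = 0) {x y : X} {v w t : V}
    (hx : L.ov x v) (hy : L.ov y w) (h : E0 om v w) (hA : L.A v w x y) (h1 : E1 om v t)
    (h2 : E1 om w t) : L.Via x y t := by
  obtain ⟨t0, s0, hs0, h3, h4, h5, h6⟩ := (L.A_E0 h).mp hA
  refine L.via_any alt hx hy (h.symm alt).1 h3 h4 h1 h2 ?_
  intro s hs hxs
  have := (L.lift hx h3).unique ⟨hs, hxs⟩ ⟨hs0, h5⟩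
  rw [this]
  exact h6

/-- the derived lift data -/
def LiftData.ext (L : LiftData om X) (alt : ∀ v, om v v = 0) : LiftData0 om X where
  ov := L.ov
  A := L.A
  ov_neg := L.ov_neg
  symm := by
    rintro v w x y (⟨h, h'⟩ | ⟨h, t, s, h1, h2, h3, h4, h5⟩)
    · exact Or.inl ⟨h.symm alt, L.symm h'⟩
    · exact Or.inr ⟨h.symm alt, t, s, h1, h3, h2, L.symm h5, L.symm h4⟩
  A_neg := by
    rintro v w x y (⟨h, h'⟩ | ⟨h, t, s, h1, h2, h3, h4, h5⟩)
    · exact Or.inl ⟨h.neg_left, h'⟩
    · exact Or.inr ⟨h.neg_left, t, s, h1, h2.neg_left, h3, h4, h5⟩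
  lift := by
    intro x v w hx hvw
    rcases hvw with h | h
    · obtain ⟨y, ⟨hy, hxy⟩, hu⟩ := L.lift hx h
      refine ⟨y, ⟨hy, (L.A_E1 h).mpr hxy⟩, ?_⟩
      rintro y' ⟨hy', hxy'⟩
      exact hu y' ⟨hy', (L.A_E1 h).mp hxy'⟩
    · obtain ⟨h0, v', w', h1, h2, h3, h4⟩ := id h
      have e1 : E1 om v (v' + w') := Or.inl (by rw [om_add_right, h1, h4]; norm_num)
      have e2 : E1 om w (v' + w') := Or.inl (by rw [om_add_right, h2, h3]; norm_num)
      obtain ⟨s, ⟨hs, hxs⟩, -⟩ := L.lift hx e1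
      obtain ⟨y, ⟨hy, hsy⟩, hu⟩ := L.lift hs (e2.symm alt)
      refine ⟨y, ⟨hy, (L.A_E0 h).mpr ⟨_, s, hs, e1, e2, hxs, hsy⟩⟩, ?_⟩
      rintro y' ⟨hy', hxy'⟩
      exact hu y' ⟨hy', L.via_of_A alt hx hy' h hxy' e1 e2 s hs hxs⟩
  t2 := by
    intro x y z v w u hx hy hz h1 h2 h3 hu hxy hyz
    have hwu : E0 om w u := E0.of_E1 alt (h1.symm alt) h3 h2 hu
    have hvu : E0 om v u := E0.of_E1 alt h1 h2 h3 hu
    have hxy' := (L.A_E1 h1).mp hxy
    -- a vector `u'` with `om u u' = 1` orthogonal to `v, w`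
    obtain ⟨u', hu1, hu2, hu3⟩ : ∃ u', om u u' = 1 ∧ om v u' = 0 ∧ om w u' = 0 := by
      obtain ⟨z0, hz0⟩ := hu
      have huv : om u v = 0 := by rw [om_swap alt, h2, neg_zero]
      have huw : om u w = 0 := by rw [om_swap alt, h3, neg_zero]
      have hwv : om w v = - om v w := om_swap alt w v
      have hsq : om v w * om v w = 1 := by
        rcases h1 with h | h <;> rw [h] <;> norm_num
      refine ⟨z0 + (om v w * om w z0) • v - (om v w * om v z0) • w, ?_, ?_, ?_⟩
      · simp only [om_add_right, om_sub_right, om_smul_right, hz0, huv, huw]; ring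
      · simp only [om_add_right, om_sub_right, om_smul_right, alt]
        linear_combination (-om v z0) * hsq
      · simp only [om_add_right, om_sub_right, om_smul_right, alt, hwv]
        linear_combination (-om w z0) * hsq
    have e1 : E1 om v (v + w + u') := by
      unfold E1 at *
      rw [om_add_right, om_add_right, alt, hu2]
      simpa using h1
    have e2 : E1 om w (v + w + u') := by
      have := h1.symm alt
      unfold E1 at *
      rw [om_add_right, om_add_right, alt, hu3]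
      simpa using this
    have e3 : E1 om u (v + w + u') := by
      left
      rw [om_add_right, om_add_right, hu1, om_swap alt u v, om_swap alt u w, h2, h3]
      norm_num
    obtain ⟨s, ⟨hs, hys⟩, -⟩ := L.lift hy e2
    have hsz := L.via_of_A alt hy hz hwu hyz e2 e3 s hs hys
    have hxs := L.t hx hy hs h1 e2 e1 hxy' hys
    exact (L.A_E0 hvu).mpr ⟨_, s, hs, e1, e3, hxs, hsz⟩
  t3 := by
    intro x y z v w u hx hy hz h1 h2 h3 hxy hyz
    exact (L.A_E0 h3).mpr ⟨w, y, hy, h1, h2.symm alt, (L.A_E1 h1).mp hxy, (L.A_E1 h2).mp hyz⟩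

end Pool.Agent.Torelli.D
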