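import Mathlib

/-!
# Torelli project, part D: the extension lemma

A compatible section over a graph is built level by level, if the low links are connected.
The lifted adjacency `A v w x y` may depend on the base edge `v w`.
-/

namespace Pool.Agent.Torelli.D

variable {V X α : Type*} [AddCommGroup V] [LinearOrder α]

/-- all three (two sides imply the third) statements for a triangle `v, w, u`. -/
def Good (ov : X → V → Prop) (A : V → V → X → X → Prop) (v w u : V) : Prop :=
  ∀ x y z, ov x v → ov y w → ov z u →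
    (A v w x y → A w u y z → A v u x z) ∧ (A v w x y → A v u x z → A w u y z) ∧
      (A v u x z → A w u y z → A v w x y)

/-- `w` is a low neighbour of `v`. -/
def Low (E : V → V → Prop) (lev : V → α) (v w : V) : Prop := E v w ∧ lev w < lev v

/-- the steps in the low link of `v`. -/
def Step (ov : X → V → Prop) (A : V → V → X → X → Prop) (E : V → V → Prop) (lev : V → α)
    (v w w' : V) : Prop :=
  Low E lev v w ∧ Low E lev v w' ∧ ((E w w' ∧ Good ov A v w w') ∨ w' = -w)

theorem exists_section [WellFoundedLT α] (P B : V → Prop) (ov : X → V → Prop)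
    (A : V → V → X → X → Prop) (E : V → V → Prop) (lev : V → α) (x0 : X)
    (hA : ∀ v w x y, A v w x y → A w v y x)
    (hAneg : ∀ v w x y, A v w x y → A (-v) w x y)
    (hover : ∀ x v, ov x v → ov x (-v))
    (hE : ∀ v w, E v w → E w v) (hEP : ∀ v w, E v w → P v)
    (hEneg : ∀ v w, E v w → E (-v) w) (hPneg : ∀ v, P v → P (-v))
    (hlev : ∀ v, lev (-v) = lev v)
    (hl : ∀ x v w, ov x v → E v w → ∃! y, ov y w ∧ A v w x y)
    (hB : ∀ v, B v → ov x0 v) (hBneg : ∀ v, B v → B (-v))
    (hBlow : ∀ v w, B v → ¬ Low E lev v w)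
    (M1 : ∀ v, P v → ¬ B v → ∃ w, Low E lev v w)
    (M1' : ∀ v, P v → ¬ B v → ∀ w w', Low E lev v w → Low E lev v w' →
      Relation.ReflTransGen (Step ov A E lev v) w w')
    (M2 : ∀ v v', E v v' → lev v = lev v' → ∃ w, Low E lev v w ∧ Low E lev v' w ∧
      Good ov A v v' w) :
    ∃ σ : V → X, (∀ v, B v → σ v = x0) ∧ (∀ v, P v → ov (σ v) v) ∧
      (∀ v, P v → σ (-v) = σ v) ∧ ∀ v w, E v w → A v w (σ v) (σ w) := by
  classical
  haveI : Nonempty X := ⟨x0⟩
  have wf : WellFounded (InvImage (· < ·) lev) := InvImage.wf lev wellFounded_lt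
  -- the recursive definition
  obtain ⟨σ, hσ⟩ : ∃ σ : V → X, ∀ v, σ v = if B v then x0 else
      if h : ∃ w, Low E lev v w then
        Classical.epsilon (fun y => ov y v ∧ A h.choose v (σ h.choose) y) else x0 := by
    refine ⟨wf.fix (fun v rec => if B v then x0 else
      if h : ∃ w, Low E lev v w then
        Classical.epsilon (fun y => ov y v ∧ A h.choose v (rec h.choose h.choose_spec.2) y)
      else x0), ?_⟩
    intro v
    rw [WellFounded.fix_eq]
  -- the inductive claim
  have hPr : ∀ v w, E v w → P w := fun v w h => hEP _ _ (hE _ _ h)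
  have hAneg' : ∀ v w x y, A (-v) w x y → A v w x y := by
    intro v w x y h
    have := hAneg _ _ _ _ h
    rwa [neg_neg] at this
  have hLowneg : ∀ v w, Low E lev v w → Low E lev (-v) w := by
    rintro v w ⟨h1, h2⟩
    exact ⟨hEneg _ _ h1, by rw [hlev]; exact h2⟩
  set C : V → Prop := fun v => ov (σ v) v ∧ ∀ w, Low E lev v w → A v w (σ v) (σ w) with hC
  have edge : ∀ v v', (∀ u, P u → lev u ≤ lev v → C u) → lev v' ≤ lev v → E v v' →
      A v v' (σ v) (σ v') := by
    intro v v' h hle hvv
    have hv := h v (hEP _ _ hvv) le_rfl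
    have hv' := h v' (hPr _ _ hvv) hle
    rcases lt_or_eq_of_le hle with hlt | heq
    · exact hv.2 v' ⟨hvv, hlt⟩
    · obtain ⟨w, hw, hw', hg⟩ := M2 v v' hvv heq.symm
      have hwC := h w (hPr _ _ hw.1) hw.2.le
      exact (hg _ _ _ hv.1 hv'.1 hwC.1).2.2 (hv.2 w hw) (hv'.2 w hw')
  have negl : ∀ v, P v → (∀ u, P u → lev u ≤ lev v → C u) → σ (-v) = σ v := by
    intro v hP h
    by_cases hb : B v
    · rw [hσ v, hσ (-v), if_pos hb, if_pos (hBneg _ hb)]
    · obtain ⟨w, hw⟩ := M1 v hP hb
      have h1 := h v hP le_rfl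
      have h2 := h (-v) (hPneg _ hP) (hlev v).le
      have h3 := h w (hPr _ _ hw.1) hw.2.le
      have hu := hl (σ w) w v h3.1 (hE _ _ hw.1)
      refine hu.unique ⟨?_, ?_⟩ ⟨h1.1, hA _ _ _ _ (h1.2 w hw)⟩
      · have := hover _ _ h2.1
        rwa [neg_neg] at this
      · exact hA _ _ _ _ (hAneg' _ _ _ _ (h2.2 w (hLowneg _ _ hw)))
  have main : ∀ v, P v → C v := by
    intro v
    induction v using wf.induction with
    | _ v ih =>
      intro hP
      by_cases hb : B v
      · refine ⟨?_, fun w hw => absurd hw (hBlow v w hb)⟩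
        rw [hσ v, if_pos hb]
        exact hB v hb
      · have hex := M1 v hP hb
        have hlow := hex.choose_spec
        set w0 := hex.choose with hw0
        have hw0C : C w0 := ih w0 hlow.2 (hPr _ _ hlow.1)
        have hspec : ov (σ v) v ∧ A w0 v (σ w0) (σ v) := by
          have h1 := (hl (σ w0) w0 v hw0C.1 (hE _ _ hlow.1)).exists
          have h2 : σ v = Classical.epsilon (fun y => ov y v ∧ A w0 v (σ w0) y) := by
            rw [hσ v, if_neg hb, dif_pos hex]
          rw [h2]
          exact Classical.epsilon_spec (p := fun y => ov y v ∧ A w0 v (σ w0) y) h1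
        refine ⟨hspec.1, ?_⟩
        intro w hw
        have hchain := M1' v hP hb w0 w hlow hw
        have ihle : ∀ u, lev u < lev v → (∀ u', P u' → lev u' ≤ lev u → C u') := by
          intro u hu u' hPu' hle
          exact ih u' (lt_of_le_of_lt hle hu) hPu'
        induction hchain with
        | refl => exact hA _ _ _ _ hspec.2
        | @tail a c hab hbc ih2 =>
          obtain ⟨ha, hc, hstep⟩ := hbc
          have haC : C a := ih a ha.2 (hPr _ _ ha.1)
          have hcC : C c := ih c hc.2 (hPr _ _ hc.1)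
          have hadjva := ih2 ha
          rcases hstep with ⟨hac, hg⟩ | hneg
          · have hac' : A a c (σ a) (σ c) := by
              rcases le_total (lev c) (lev a) with hle | hle
              · exact edge a c (ihle a ha.2) hle hac
              · exact hA _ _ _ _ (edge c a (ihle c hc.2) hle (hE _ _ hac))
            exact (hg _ _ _ hspec.1 haC.1 hcC.1).1 hadjva hac'
          · rw [hneg, negl a (hPr _ _ ha.1) (ihle a ha.2)]
            exact hA _ _ _ _ (hAneg _ _ _ _ (hA _ _ _ _ hadjva))
  refine ⟨σ, ?_, fun v hv => (main v hv).1, ?_, ?_⟩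
  · intro v hv
    rw [hσ v, if_pos hv]
  · intro v hv
    exact negl v hv (fun u hu _ => main u hu)
  · intro v w hvw
    rcases le_total (lev w) (lev v) with hle | hle
    · exact edge v w (fun u hu _ => main u hu) hle hvw
    · exact hA _ _ _ _ (edge w v (fun u hu _ => main u hu) hle (hE _ _ hvw))

end Pool.Agent.Torelli.D
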