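import Pool.Agent.Torelli.D.Basic
import Pool.Agent.Torelli.D.Ext

/-!
# Torelli project, part D: lift data and good triangles
-/

namespace Pool.Agent.Torelli.D

variable {V X : Type*} [AddCommGroup V]

/-- Lift data over the graph of primitive vectors with hyperbolic edges. -/
structure LiftData (om : V →+ V →+ ℤ) (X : Type*) where
  /-- `x` lies over `v` -/
  ov : X → V → Prop
  /-- lifted adjacency -/
  adj : X → X → Prop
  ov_neg : ∀ {x v}, ov x v → ov x (-v)
  symm : ∀ {x y}, adj x y → adj y x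
  lift : ∀ {x v w}, ov x v → E1 om v w → ∃! y, ov y w ∧ adj x y
  t : ∀ {x y z v w u}, ov x v → ov y w → ov z u → E1 om v w → E1 om w u → E1 om v u →
    adj x y → adj y z → adj x z

/-- Lift data with hyperbolic and isotropic edges (derived). -/
structure LiftData0 (om : V →+ V →+ ℤ) (X : Type*) where
  ov : X → V → Prop
  A : V → V → X → X → Prop
  ov_neg : ∀ {x v}, ov x v → ov x (-v)
  symm : ∀ {v w x y}, A v w x y → A w v y x
  A_neg : ∀ {v w x y}, A v w x y → A (-v) w x y
  lift : ∀ {x v w}, ov x v → (E1 om v w ∨ E0 om v w) → ∃! y, ov y w ∧ A v w x y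
  t2 : ∀ {x y z v w u}, ov x v → ov y w → ov z u → E1 om v w → om v u = 0 → om w u = 0 →
    prim om u → A v w x y → A w u y z → A v u x z
  t3 : ∀ {x y z v w u}, ov x v → ov y w → ov z u → E1 om v w → E1 om w u → E0 om v u →
    A v w x y → A w u y z → A v u x z

section good

variable {ov : X → V → Prop} {A : V → V → X → X → Prop}

theorem Good.swap12 (hs : ∀ {v w x y}, A v w x y → A w v y x) {v w u : V} (h : Good ov A v w u) :
    Good ov A w v u := by
  intro x y z hx hy hz
  obtain ⟨h1, h2, h3⟩ := h y x z hy hx hz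
  exact ⟨fun a b => h2 (hs a) b, fun a b => h1 (hs a) b, fun a b => hs (h3 b a)⟩

theorem Good.swap23 (hs : ∀ {v w x y}, A v w x y → A w v y x) {v w u : V} (h : Good ov A v w u) :
    Good ov A v u w := by
  intro x y z hx hy hz
  obtain ⟨h1, h2, h3⟩ := h x z y hx hz hy
  exact ⟨fun a b => h3 a (hs b), fun a b => hs (h2 b a), fun a b => h1 a (hs b)⟩

theorem Good.neg1 (hn : ∀ {x v}, ov x v → ov x (-v)) (ha : ∀ {v w x y}, A v w x y → A (-v) w x y)
    {v w u : V} (h : Good ov A v w u) : Good ov A (-v) w u := by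
  have ha' : ∀ {v w x y}, A (-v) w x y → A v w x y := by
    intro v w x y h
    have := ha h
    rwa [neg_neg] at this
  intro x y z hx hy hz
  have hx' := hn hx
  rw [neg_neg] at hx'
  obtain ⟨h1, h2, h3⟩ := h x y z hx' hy hz
  exact ⟨fun a b => ha (h1 (ha' a) b), fun a b => h2 (ha' a) (ha' b),
    fun a b => ha (h3 (ha' a) b)⟩

theorem Good.neg2 (hs : ∀ {v w x y}, A v w x y → A w v y x)
    (hn : ∀ {x v}, ov x v → ov x (-v)) (ha : ∀ {v w x y}, A v w x y → A (-v) w x y)
    {v w u : V} (h : Good ov A v w u) : Good ov A v (-w) u :=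
  Good.swap12 (ov := ov) (A := A) hs (Good.neg1 (ov := ov) (A := A) hn ha
    (Good.swap12 (ov := ov) (A := A) hs h))

theorem Good.neg3 (hs : ∀ {v w x y}, A v w x y → A w v y x)
    (hn : ∀ {x v}, ov x v → ov x (-v)) (ha : ∀ {v w x y}, A v w x y → A (-v) w x y)
    {v w u : V} (h : Good ov A v w u) : Good ov A v w (-u) :=
  Good.swap23 (ov := ov) (A := A) hs (Good.neg2 (ov := ov) (A := A) hs hn ha
    (Good.swap23 (ov := ov) (A := A) hs h))

end good

variable {om : V →+ V →+ ℤ}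

theorem LiftData0.good_of (L : LiftData0 om X) (alt : ∀ v, om v v = 0) {v w u : V}
    (h1 : E1 om v w ∨ E0 om v w) (h2 : E1 om w u ∨ E0 om w u) (h3 : E1 om v u ∨ E0 om v u)
    (h : ∀ x y z, L.ov x v → L.ov y w → L.ov z u → L.A v w x y → L.A w u y z → L.A v u x z) :
    Good L.ov L.A v w u := by
  have sy : ∀ {a b : V}, (E1 om a b ∨ E0 om a b) → (E1 om b a ∨ E0 om b a) := by
    intro a b hab
    exact hab.imp (fun h => h.symm alt) (fun h => h.symm alt)
  intro x y z hx hy hz
  refine ⟨h x y z hx hy hz, ?_, ?_⟩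
  · intro hxy hxz
    obtain ⟨z', ⟨hz', hyz'⟩, -⟩ := L.lift hy h2
    have := h x y z' hx hy hz' hxy hyz'
    have heq := (L.lift hx h3).unique ⟨hz', this⟩ ⟨hz, hxz⟩
    rwa [heq] at hyz'
  · intro hxz hyz
    obtain ⟨y', ⟨hy', hxy'⟩, -⟩ := L.lift hx h1
    obtain ⟨z', ⟨hz', hyz'⟩, -⟩ := L.lift hy' h2
    have h4 := h x y' z' hx hy' hz' hxy' hyz'
    have heq := (L.lift hx h3).unique ⟨hz', h4⟩ ⟨hz, hxz⟩
    rw [heq] at hyz'
    have heq2 := (L.lift hz (sy h2)).unique ⟨hy', L.symm hyz'⟩ ⟨hy, L.symm hyz⟩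
    rwa [heq2] at hxy'

/-- triangles `v, w, u` with `v, w` hyperbolic and `u` orthogonal to both. -/
theorem LiftData0.good_t2 (L : LiftData0 om X) (alt : ∀ v, om v v = 0) {v w u : V}
    (h1 : E1 om v w) (h2 : om v u = 0) (h3 : om w u = 0) (hu : prim om u) :
    Good L.ov L.A v w u :=
  L.good_of alt (Or.inl h1) (Or.inr (E0.of_E1 alt (h1.symm alt) h3 h2 hu))
    (Or.inr (E0.of_E1 alt h1 h2 h3 hu))
    (fun _ _ _ hx hy hz => L.t2 hx hy hz h1 h2 h3 hu)

/-- triangles `v, w, v + w` with `v, w` an isotropic unimodular pair. -/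
theorem LiftData0.good_t0 (L : LiftData0 om X) (alt : ∀ v, om v v = 0) {v w : V}
    (h : E0 om v w) : Good L.ov L.A v w (v + w) := by
  have hvw : E0 om v (v + w) := by
    have := h.add_smul alt 1
    rwa [one_smul, add_comm] at this
  have hwv : E0 om w (v + w) := by
    have := (h.symm alt).add_smul alt 1
    rwa [one_smul] at this
  refine L.good_of alt (Or.inr h) (Or.inr hwv) (Or.inr hvw) ?_
  intro x y z hx hy hz hxy hyz
  obtain ⟨h0, t, w', h1, h2, h3, h4⟩ := id h
  -- neighbour of `x` over `t`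
  have hvt : E1 om v t := Or.inl h1
  obtain ⟨s, ⟨hs, hxs⟩, -⟩ := L.lift hx (Or.inl hvt)
  have gxys := L.good_t2 alt hvt h0 (by rw [om_swap alt, h2, neg_zero]) h.prim_right
  -- `y` adjacent to `s`
  have hsy : L.A t w s y := (gxys x s y hx hs hy).2.1 hxs hxy
  have hsum : E1 om (v + w) t := Or.inl (by rw [om_add_left, h1, h2]; norm_num)
  have gzys := L.good_t2 alt hsum (u := w) (by rw [om_add_left, h0, alt]; norm_num)
    (by rw [om_swap alt, h2, neg_zero]) h.prim_right
  have hzs : L.A (v + w) t z s := (gzys z s y hz hs hy).2.2 (L.symm hyz) hsy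
  exact L.t3 hx hs hz hvt (hsum.symm alt) hvw hxs (L.symm hzs)

/-- triangles `v, w, v + w` with `v, w` hyperbolic, when there is an orthogonal primitive
vector. -/
theorem LiftData0.good_t1 (L : LiftData0 om X) (alt : ∀ v, om v v = 0)
    (hG : ∀ u v, om u v = 1 → ∃ w, prim om w ∧ om u w = 0 ∧ om v w = 0) {v w : V}
    (h : E1 om v w) : Good L.ov L.A v w (v + w) := by
  obtain ⟨t, ht, hvt, hwt⟩ : ∃ t, prim om t ∧ om v t = 0 ∧ om w t = 0 := by
    rcases h with h | h
    · exact hG v w h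
    · obtain ⟨t, ht, h1, h2⟩ := hG w v (by rw [om_swap alt, h]; norm_num)
      exact ⟨t, ht, h2, h1⟩
  have hvw' : E1 om v (v + w) := by
    unfold E1 at *
    rw [om_add_right, alt]
    omega
  have hwv' : E1 om w (v + w) := by
    have := h.symm alt
    unfold E1 at *
    rw [om_add_right, alt]
    omega
  have hst : om (v + w) t = 0 := by rw [om_add_left, hvt, hwt]; norm_num
  refine L.good_of alt (Or.inl h) (Or.inl hwv') (Or.inl hvw') ?_
  intro x y z hx hy hz hxy hyz
  obtain ⟨s, ⟨hs, hys⟩, -⟩ := L.lift hy (Or.inr (E0.of_E1 alt (h.symm alt) hwt hvt ht))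
  have g1 := L.good_t2 alt h hvt hwt ht x y s hx hy hs
  have g2 := L.good_t2 alt hwv' hwt hst ht y z s hy hz hs
  have g3 := L.good_t2 alt hvw' hvt hst ht x z s hx hz hs
  exact g3.2.2 (g1.1 hxy hys) (g2.2.1 hyz hys)

end Pool.Agent.Torelli.D
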