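import Pool.Agent.Torelli.D.Cont
import Pool.Agent.Torelli.D.Tri
import Pool.Agent.Torelli.D.Conn

/-!
# Torelli project, part D: the allowed edges and the level function
-/

namespace Pool.Agent.Torelli.D

variable {V X : Type*} [AddCommGroup V] {om : V →+ V →+ ℤ}

/-- allowed edges: all hyperbolic ones, and some isotropic ones. -/
def Ed (om : V →+ V →+ ℤ) (e v w : V) : Prop :=
  E1 om v w ∨ (E0 om v w ∧ (|om e v| ≠ |om e w| ∨
    (om e v = 0 ∧ om e w = 0 ∧ ∃ a b : ℤ, e = a • v + b • w)))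

/-- the level of a vertex -/
noncomputable def lev (om : V →+ V →+ ℤ) (e v : V) : ℕ ×ₗ ℕ :=
  toLex ((om e v).natAbs, if om e v = 0 then cont om e v else 0)

theorem Ed.symm (alt : ∀ v, om v v = 0) {e v w : V} (h : Ed om e v w) : Ed om e w v := by
  rcases h with h | ⟨h0, h | ⟨h1, h2, a, b, h3⟩⟩
  · exact Or.inl (h.symm alt)
  · exact Or.inr ⟨h0.symm alt, Or.inl (fun h' => h h'.symm)⟩
  · exact Or.inr ⟨h0.symm alt, Or.inr ⟨h2, h1, b, a, by rw [h3]; abel⟩⟩

theorem Ed.base (alt : ∀ v, om v v = 0) {e v w : V} (h : Ed om e v w) : E1 om v w ∨ E0 om v w :=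
  h.imp id (fun h => h.1)

theorem Ed.prim {e v w : V} (h : Ed om e v w) : prim om v := by
  rcases h with h | h
  · exact h.prim_left
  · exact h.1.prim_left

theorem Ed.neg {e v w : V} (h : Ed om e v w) : Ed om e (-v) w := by
  rcases h with h | ⟨h0, h | ⟨h1, h2, a, b, h3⟩⟩
  · exact Or.inl h.neg_left
  · exact Or.inr ⟨h0.neg_left, Or.inl (by rwa [om_neg_right, abs_neg])⟩
  · refine Or.inr ⟨h0.neg_left, Or.inr ⟨by rw [om_neg_right, h1, neg_zero], h2, -a, b, ?_⟩⟩
    rw [h3]
    simp

theorem lev_neg (e v : V) : lev om e (-v) = lev om e v := by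
  unfold lev
  rw [om_neg_right, Int.natAbs_neg, cont_neg]
  congr 2
  by_cases h : om e v = 0
  · rw [if_pos h, if_pos (by rw [h, neg_zero])]
  · rw [if_neg h, if_neg (by intro h'; exact h (neg_eq_zero.mp h'))]

/-- comparison of levels at positive height -/
theorem lev_lt_pos {e v w : V} (hv : om e v ≠ 0) :
    lev om e w < lev om e v ↔ |om e w| < |om e v| := by
  unfold lev
  rw [Prod.Lex.toLex_lt_toLex]
  rw [if_neg hv]
  simp only [not_lt_zero, and_false, or_false]
  rw [← Int.natCast_natAbs, ← Int.natCast_natAbs]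
  exact_mod_cast Iff.rfl

/-- comparison of levels at height zero -/
theorem lev_lt_zero {e v w : V} (hv : om e v = 0) :
    lev om e w < lev om e v ↔ om e w = 0 ∧ cont om e w < cont om e v := by
  unfold lev
  rw [Prod.Lex.toLex_lt_toLex]
  rw [if_pos hv, hv]
  simp only [Int.natAbs_zero, not_lt_zero, false_or, Int.natAbs_eq_zero]
  constructor
  · rintro ⟨h1, h2⟩
    rw [if_pos h1] at h2
    exact ⟨h1, h2⟩
  · rintro ⟨h1, h2⟩
    rw [if_pos h1]
    exact ⟨h1, h2⟩

theorem lev_eq {e v w : V} (h : lev om e v = lev om e w) :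
    (om e v).natAbs = (om e w).natAbs ∧ (om e v = 0 → cont om e v = cont om e w) := by
  unfold lev at h
  have h' := toLex.injective h
  rw [Prod.mk.injEq] at h'
  refine ⟨h'.1, fun h0 => ?_⟩
  have h1 : om e w = 0 := by
    have := h'.1
    rw [h0] at this
    exact Int.natAbs_eq_zero.mp this.symm
  have h2 := h'.2
  rwa [if_pos h0, if_pos h1] at h2

theorem not_lev_lt_base (alt : ∀ v, om v v = 0) {e v w : V} (hv : v = e ∨ v = -e) :
    ¬ lev om e w < lev om e v := by
  have h0 : om e v = 0 := by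
    rcases hv with h | h
    · rw [h, alt]
    · rw [h, om_neg_right, alt, neg_zero]
  have h1 : cont om e v = 0 := by
    rcases hv with h | h
    · rw [h, cont_self alt]
    · rw [h, cont_neg, cont_self alt]
  rw [lev_lt_zero h0, h1]
  simp

end Pool.Agent.Torelli.D
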