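import Pool.Agent.Torelli.D.Tri
import Pool.Agent.Torelli.D.Conn

/-!
# Torelli project, part D: rank two
-/

namespace Pool.Agent.Torelli.D

variable {V X : Type*} [AddCommGroup V] {om : V →+ V →+ ℤ}

/-- the section for the rank two lattice -/
theorem section_rank2 (alt : ∀ v, om v v = 0)
    (h1 : ∀ v x, prim om v → om v x = 0 → ∃ k : ℤ, x = k • v)
    (L : LiftData om X) {e : V} (he : prim om e) {x0 : X} (hx : L.ov x0 e) :
    ∃ σ : V → X, σ e = x0 ∧ (∀ v, prim om v → L.ov (σ v) v ∧ σ (-v) = σ v) ∧
      ∀ v w, E1 om v w → L.adj (σ v) (σ w) := by
  set A : V → V → X → X → Prop := fun _ _ x y => L.adj x y with hA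
  set lv : V → ℕ := fun v => (om e v).natAbs with hlv
  -- good triangles
  have good : ∀ v w u : V, E1 om v w → E1 om w u → E1 om v u → Good L.ov A v w u := by
    intro v w u e1 e2 e3 x y z hx hy hz
    refine ⟨fun a b => L.t hx hy hz e1 e2 e3 a b, fun a b => ?_, fun a b => ?_⟩
    · exact L.t hy hx hz (e1.symm alt) e3 e2 (L.symm a) b
    · exact L.t hx hz hy e3 (e2.symm alt) e1 a (L.symm b)
  have prim_abs : ∀ v, prim om v → ∀ k : ℤ, prim om (k • v) → k = 1 ∨ k = -1 := by
    rintro v hv k ⟨z, hz⟩
    rw [om_smul_left] at hz
    exact Int.isUnit_iff.mp (IsUnit.of_mul_eq_one _ hz)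
  have base_iff : ∀ v, prim om v → om e v = 0 → v = e ∨ v = -e := by
    intro v hv h0
    obtain ⟨k, hk⟩ := h1 e v he h0
    rw [hk] at hv
    rcases prim_abs e he k hv with h | h
    · left; rw [hk, h, one_smul]
    · right; rw [hk, h, neg_smul, one_smul]
  have lowE : ∀ v w, Low (E1 om) lv v w ↔ E1 om v w ∧ (om e w).natAbs < (om e v).natAbs :=
    fun v w => Iff.rfl
  obtain ⟨σ, s1, s2, s3, s4⟩ := exists_section (P := prim om) (B := fun v => v = e ∨ v = -e)
    L.ov A (E1 om) lv x0 (fun v w x y h => L.symm h) (fun v w x y h => h)
    (fun x v h => L.ov_neg h) (fun v w h => h.symm alt) (fun v w h => h.prim_left)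
    (fun v w h => h.neg_left) (fun v h => h.neg)
    (fun v => by simp only [hlv]; rw [om_neg_right, Int.natAbs_neg])
    (fun x v w h h' => L.lift h h')
    (by
      rintro v (h | h)
      · rw [h]; exact hx
      · rw [h]; exact L.ov_neg hx)
    (by
      rintro v (h | h)
      · right; rw [h]
      · left; rw [h, neg_neg])
    (by
      rintro v w h ⟨-, h2⟩
      have : lv v = 0 := by
        simp only [hlv]
        rcases h with h | h
        · rw [h, alt]; rfl
        · rw [h, om_neg_right, alt]; rfl
      omega)
    (by
      intro v hv hb
      have hev : om e v ≠ 0 := fun h => hb (base_iff v hv h)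
      obtain ⟨w0, hw0⟩ := hv
      obtain ⟨k, hk⟩ := exists_shift e v hev w0
      refine ⟨w0 + k • v, Or.inl ?_, ?_⟩
      · rw [om_add_right, om_smul_right, hw0, alt]; ring
      · show (om e (w0 + k • v)).natAbs < (om e v).natAbs
        have e1 := Int.natCast_natAbs (om e (w0 + k • v))
        have e2 := Int.natCast_natAbs (om e v)
        omega)
    (by
      intro v hv hb w w' hw hw'
      have hev : om e v ≠ 0 := fun h => hb (base_iff v hv h)
      -- normalised version
      have key : ∀ w w', Low (E1 om) lv v w → Low (E1 om) lv v w' → om v w = om v w' →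
          Relation.ReflTransGen (Step L.ov A (E1 om) lv v) w w' := by
        intro w w' hw hw' hww
        obtain ⟨k, hk⟩ := h1 v (w' - w) hv (by rw [om_sub_right, hww, sub_self])
        have hw'' : w' = w + k • v := by rw [← hk]; abel
        have hk1 : k = 0 ∨ k = 1 ∨ k = -1 := by
          have h2 : om e w' = om e w + k * om e v := by rw [hw'', om_add_right, om_smul_right]
          have h3 := hw.2
          have h4 := hw'.2
          simp only [hlv] at h3 h4
          have h5 : |k| * |om e v| < 2 * |om e v| := by
            rw [← abs_mul]
            have h6 : k * om e v = om e w' - om e w := by linarith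
            rw [h6]
            have : |om e w' - om e w| ≤ |om e w'| + |om e w| := abs_sub _ _
            have e1 := Int.natCast_natAbs (om e w)
            have e2 := Int.natCast_natAbs (om e v)
            have e3 := Int.natCast_natAbs (om e w')
            omega
          have h6 : 0 < |om e v| := abs_pos.mpr hev
          have h7 : |k| < 2 := by nlinarith
          rw [abs_lt] at h7
          omega
        have hE : E1 om v w := hw.1
        have hE' : E1 om v w' := hw'.1
        rcases hk1 with h | h | h
        · rw [hw'', h, zero_smul, add_zero]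
        · have hww' : E1 om w w' := by
            have := hE.symm alt
            rw [hw'', h, one_smul]
            unfold E1 at *
            rw [om_add_right, alt]
            omega
          exact Relation.ReflTransGen.single ⟨hw, hw', Or.inl ⟨hww', good v w w' hE hww' hE'⟩⟩
        · have hww' : E1 om w w' := by
            have := hE.symm alt
            rw [hw'', h, neg_smul, one_smul]
            unfold E1 at *
            rw [om_add_right, om_neg_right, alt]
            omega
          exact Relation.ReflTransGen.single ⟨hw, hw', Or.inl ⟨hww', good v w w' hE hww' hE'⟩⟩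
      by_cases hs : om v w = om v w'
      · exact key w w' hw hw' hs
      · have hlow : Low (E1 om) lv v (-w') := by
          refine ⟨hw'.1.neg_right, ?_⟩
          have := hw'.2
          simp only [hlv] at this ⊢
          rwa [om_neg_right, Int.natAbs_neg]
        have hs' : om v w = om v (-w') := by
          have e1 := hw.1
          have e2 := hw'.1
          unfold E1 at e1 e2
          rw [om_neg_right]
          omega
        exact (key w (-w') hw hlow hs').tail ⟨hlow, hw', Or.inr (neg_neg w').symm⟩)
    (by
      intro v v' hE hl
      have habs : (om e v).natAbs = (om e v').natAbs := hl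
      -- height zero is impossible
      have hev : om e v ≠ 0 := by
        intro h0
        have h0' : om e v' = 0 := by
          rw [h0] at habs
          exact Int.natAbs_eq_zero.mp habs.symm
        obtain ⟨k, hk⟩ := h1 e v he h0
        obtain ⟨l, hl⟩ := h1 e v' he h0'
        unfold E1 at hE
        rw [hk, hl, om_smul_left, om_smul_right, alt] at hE
        simp at hE
      have hev' : om e v' ≠ 0 := by omega
      have key : ∀ v', om e v' ≠ 0 → E1 om v v' → om e v' = - om e v →
          ∃ w, Low (E1 om) lv v w ∧ Low (E1 om) lv v' w ∧ Good L.ov A v v' w := by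
        intro v' hev' hE h
        have h0 : om e (v + v') = 0 := by rw [om_add_right, h]; ring
        have e1 : E1 om v (v + v') := by
          unfold E1 at *
          rw [om_add_right, alt]
          omega
        have e2 : E1 om v' (v + v') := by
          have := hE.symm alt
          unfold E1 at *
          rw [om_add_right, alt]
          omega
        refine ⟨v + v', ⟨e1, ?_⟩, ⟨e2, ?_⟩, good _ _ _ hE e2 e1⟩
        · simp only [hlv]
          rw [h0]; omega
        · simp only [hlv]
          rw [h0]; omega
      rcases Int.natAbs_eq_natAbs_iff.mp habs with h | h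
      · obtain ⟨w, hw1, hw2, hw3⟩ := key (-v') (by rw [om_neg_right]; exact neg_ne_zero.mpr hev')
          hE.neg_right (by rw [om_neg_right, h])
        refine ⟨w, hw1, ⟨?_, ?_⟩, ?_⟩
        · have := hw2.1.neg_left
          rwa [neg_neg] at this
        · have := hw2.2
          simp only [hlv] at this ⊢
          rwa [om_neg_right, Int.natAbs_neg] at this
        · have := Good.neg2 (ov := L.ov) (A := A) (fun h => L.symm h) L.ov_neg (fun h => h) hw3
          rwa [neg_neg] at this
      · exact key v' hev' hE (by rw [h, neg_neg]))
  exact ⟨σ, s1 e (Or.inl rfl), fun v hv => ⟨s2 v hv, s3 v hv⟩, s4⟩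

end Pool.Agent.Torelli.D
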