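import Pool.Agent.Torelli.D.Graph

/-!
# Torelli project, part D: the vectors orthogonal to `e`
-/

namespace Pool.Agent.Torelli.D

variable {V X : Type*} [AddCommGroup V] {om : V →+ V →+ ℤ}

theorem E0_self (alt : ∀ v, om v v = 0) {v w : V} (h : E0 om v w) : om w v = 0 := by
  rw [om_swap alt, h.1, neg_zero]

/-- characterisation of low neighbours at height zero -/
theorem low_zero (alt : ∀ v, om v v = 0) {e v w : V} (hv : om e v = 0)
    (h : Low (Ed om e) (lev om e) v w) :
    om e w = 0 ∧ cont om e w < cont om e v ∧ E0 om v w ∧ ∃ a b : ℤ, e = a • v + b • w := by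
  obtain ⟨h1, h2⟩ := h
  rw [lev_lt_zero hv] at h2
  refine ⟨h2.1, h2.2, ?_⟩
  rcases h1 with h1 | ⟨h0, h1 | ⟨-, -, h1⟩⟩
  · have e1 := cont_one h2.1 h1
    have e2 := cont_one hv (h1.symm alt)
    omega
  · rw [hv, h2.1] at h1
    exact absurd rfl h1
  · exact ⟨h0, h1⟩

theorem low_zero_mk {e v w : V} (hv : om e v = 0) (hw : om e w = 0)
    (hc : cont om e w < cont om e v) (h0 : E0 om v w) {a b : ℤ} (hab : e = a • v + b • w) :
    Low (Ed om e) (lev om e) v w :=
  ⟨Or.inr ⟨h0, Or.inr ⟨hv, hw, a, b, hab⟩⟩, (lev_lt_zero hv).mpr ⟨hw, hc⟩⟩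

/-- M1 at height zero -/
theorem M1_zero (alt : ∀ v, om v v = 0) (U : Unim om) {e v : V} (he : prim om e)
    (hv : prim om v) (hev : om e v = 0) (h1 : v ≠ e) (h2 : v ≠ -e) :
    ∃ w, Low (Ed om e) (lev om e) v w := by
  obtain ⟨a, c, y, hc, hvy, hE, s, t, hst⟩ := exists_normal alt U he hv hev h1 h2
  -- `w = b • e + d • y` with `a d - c b = 1`, `d` reduced
  set q := s / c with hq
  set d := s % c with hd
  set b := -t - a * q with hb
  have hsd : s = d + c * q := by
    have := Int.emod_add_mul_ediv s c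
    rw [hd, hq]; linarith
  have hdet : a * d - c * b = 1 := by
    rw [hb]
    have : a * d - c * (-t - a * q) = (d + c * q) * a + t * c := by ring
    rw [this, ← hsd, hst]
  refine ⟨b • e + d • y, low_zero_mk (a := d) (b := -c) hev ?_ ?_ ?_ ?_⟩
  · rw [om_add_right, om_smul_right, om_smul_right, alt, hE.1]; ring
  · rw [cont_eq hE, hvy, cont_eq hE, hd]
    have h1 := Int.emod_nonneg s hc
    have h2 := Int.emod_lt_abs s hc
    have h3 : ((c.natAbs : ℕ) : ℤ) = |c| := Int.natCast_natAbs c
    omega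
  · rw [hvy]
    exact hE.basis alt (by linarith)
  · rw [hvy]
    have : d • (a • e + c • y) + (-c) • (b • e + d • y) = (a * d - c * b) • e := by module
    rw [this, hdet, one_smul]

/-- the steps with equal coefficient -/
theorem step_aux (alt : ∀ v, om v v = 0) (U : Unim om) (L : LiftData0 om X) {e v : V}
    (he : prim om e) (hv : prim om v) (hev : om e v = 0) {w w' : V}
    (hw : Low (Ed om e) (lev om e) v w) (hw' : Low (Ed om e) (lev om e) v w')
    {a a' b : ℤ} (hab : e = a • v + b • w) (hab' : e = a' • v + b • w') :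
    Relation.ReflTransGen (Step L.ov L.A (Ed om e) (lev om e) v) w w' := by
  obtain ⟨hw0, hwc, hwE, -⟩ := low_zero alt hev hw
  obtain ⟨hw0', hwc', hwE', -⟩ := low_zero alt hev hw'
  obtain ⟨-, hcv, hcw⟩ := plane alt he hwE hab
  obtain ⟨-, -, hcw'⟩ := plane alt he hwE' hab'
  rw [hcw, hcv] at hwc
  rw [hcw', hcv] at hwc'
  have hb0 : b ≠ 0 := by
    intro h
    rw [h] at hwc
    simp at hwc
  obtain ⟨z, hz⟩ := id hv
  -- `b (w' - w) = (a - a') v`
  have h1 : b • (w' - w) = (a - a') • v := by
    have := hab.symm.trans hab'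
    have h2 : b • (w' - w) - (a - a') • v = (a' • v + b • w') - (a • v + b • w) := by module
    rw [← this] at h2
    rw [sub_self] at h2
    exact sub_eq_zero.mp h2
  obtain ⟨j, hj⟩ : b ∣ a - a' := by
    refine ⟨om (w' - w) z, ?_⟩
    have h2 : om (b • (w' - w)) z = om ((a - a') • v) z := by rw [h1]
    rw [om_smul_left, om_smul_left, hz] at h2
    linarith
  have h2 : w' = w + j • v := by
    have h3 : b • (w' - w - j • v) = 0 := by
      rw [smul_sub, h1, hj, smul_smul, sub_self]
    have := U.torsion hb0 h3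
    have h4 : w' - (w + j • v) = 0 := by rw [← this]; abel
    exact sub_eq_zero.mp h4
  have hj1 : j = 0 ∨ j = 1 ∨ j = -1 := by
    have h3 : |b| * |j| < 2 * |b| := by
      rw [← abs_mul, ← hj]
      have : |a - a'| ≤ |a| + |a'| := abs_sub _ _
      have h3 : ((a.natAbs : ℕ) : ℤ) = |a| := Int.natCast_natAbs a
      have h4 : ((a'.natAbs : ℕ) : ℤ) = |a'| := Int.natCast_natAbs a'
      have h5 : ((b.natAbs : ℕ) : ℤ) = |b| := Int.natCast_natAbs b
      omega
    have h4 : 0 < |b| := abs_pos.mpr hb0
    have h5 : |j| < 2 := by nlinarith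
    rw [abs_lt] at h5
    omega
  rcases hj1 with hj1 | hj1 | hj1
  · rw [h2, hj1, zero_smul, add_zero]
  · have hww : w' = v + w := by rw [h2, hj1, one_smul, add_comm]
    refine Relation.ReflTransGen.single ⟨hw, hw', Or.inl ⟨Or.inr ⟨?_, Or.inr ⟨hw0, hw0',
      b - a, a, ?_⟩⟩, ?_⟩⟩
    · have := (hwE.symm alt).add_smul alt 1
      rwa [one_smul, ← hww] at this
    · rw [hww]
      rw [hab]
      module
    · rw [hww]
      exact L.good_t0 alt hwE
  · have hww : w' = -v + w := by rw [h2, hj1, neg_smul, one_smul, add_comm]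
    refine Relation.ReflTransGen.single ⟨hw, hw', Or.inl ⟨Or.inr ⟨?_, Or.inr ⟨hw0, hw0',
      b + a, -a, ?_⟩⟩, ?_⟩⟩
    · have := ((hwE.symm alt).neg_right).add_smul alt 1
      rwa [one_smul, ← hww] at this
    · rw [hww]
      rw [hab]
      module
    · rw [hww]
      have := Good.neg1 (ov := L.ov) (A := L.A) L.ov_neg L.A_neg (L.good_t0 alt hwE.neg_left)
      rwa [neg_neg] at this

theorem Low.neg_right (alt : ∀ v, om v v = 0) {e v w : V} (h : Low (Ed om e) (lev om e) v w) :
    Low (Ed om e) (lev om e) v (-w) :=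
  ⟨((h.1.symm alt).neg).symm alt, by rw [lev_neg]; exact h.2⟩

/-- M1' at height zero -/
theorem M1'_zero (alt : ∀ v, om v v = 0) (U : Unim om) (L : LiftData0 om X) {e v : V}
    (he : prim om e) (hv : prim om v) (hev : om e v = 0) {w w' : V}
    (hw : Low (Ed om e) (lev om e) v w) (hw' : Low (Ed om e) (lev om e) v w') :
    Relation.ReflTransGen (Step L.ov L.A (Ed om e) (lev om e) v) w w' := by
  obtain ⟨-, -, hwE, a, b, hab⟩ := low_zero alt hev hw
  obtain ⟨-, -, hwE', a', b', hab'⟩ := low_zero alt hev hw'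
  obtain ⟨-, hcv, -⟩ := plane alt he hwE hab
  obtain ⟨-, hcv', -⟩ := plane alt he hwE' hab'
  have hbb : b' = b ∨ b' = -b := by omega
  rcases hbb with h | h
  · rw [h] at hab'
    exact step_aux alt U L he hv hev hw hw' hab hab'
  · have hab2 : e = a' • v + b • (-w') := by
      rw [hab', h]
      module
    have h1 := step_aux alt U L he hv hev hw (Low.neg_right alt hw') hab hab2
    refine h1.tail ⟨Low.neg_right alt hw', hw', Or.inr (neg_neg w').symm⟩

theorem E0_sign {e v v' : V} (h0 : E0 om v v') {a b : ℤ} (hab : e = a • v + b • v')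
    (hb : b = 1 ∨ b = -1) (alt : ∀ v, om v v = 0) : E0 om v e := by
  rcases hb with h | h
  · have := h0.add_smul alt a
    have h2 : e = v' + a • v := by rw [hab, h]; module
    rwa [h2]
  · have := (h0.add_smul alt (-a)).neg_right
    have h2 : e = -(v' + (-a) • v) := by rw [hab, h]; module
    rwa [h2]

/-- M2 at height zero -/
theorem M2_zero (alt : ∀ v, om v v = 0) (L : LiftData0 om X) {e v v' : V}
    (he : prim om e) (hev : om e v = 0) (hE : Ed om e v v') (hlev : lev om e v = lev om e v') :
    ∃ w, Low (Ed om e) (lev om e) v w ∧ Low (Ed om e) (lev om e) v' w ∧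
      Good L.ov L.A v v' w := by
  obtain ⟨h1, h2⟩ := lev_eq hlev
  have hev' : om e v' = 0 := by
    rw [hev] at h1
    exact Int.natAbs_eq_zero.mp h1.symm
  have hcont := h2 hev
  refine ⟨e, ?_⟩
  have hve : om v e = 0 := by rw [om_swap alt, hev, neg_zero]
  have hve' : om v' e = 0 := by rw [om_swap alt, hev', neg_zero]
  rcases hE with hE | ⟨h0, hE | ⟨-, -, a, b, hab⟩⟩
  · have c1 : cont om e v = 1 := cont_one hev' hE
    refine ⟨low_zero_mk (a := 0) (b := 1) hev (alt e) ?_ (E0.of_E1 alt hE hve hve' he) ?_,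
      low_zero_mk (a := 0) (b := 1) hev' (alt e) ?_
        (E0.of_E1 alt (hE.symm alt) hve' hve he) ?_, L.good_t2 alt hE hve hve' he⟩
    · rw [cont_self alt, c1]; exact one_pos
    · module
    · rw [cont_self alt, ← hcont, c1]; exact one_pos
    · module
  · rw [hev, hev'] at hE
    exact absurd rfl hE
  · obtain ⟨hco, hcv, hcv'⟩ := plane alt he h0 hab
    have hab1 : a.natAbs = b.natAbs := by omega
    have hb1 : b.natAbs = 1 := by
      have := Int.isCoprime_iff_gcd_eq_one.mp hco
      rw [Int.gcd_def, hab1, Nat.gcd_self] at this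
      exact this
    have ha1 : a.natAbs = 1 := by omega
    have hb : b = 1 ∨ b = -1 := by omega
    have ha : a = 1 ∨ a = -1 := by omega
    have hve0 := E0_sign h0 hab hb alt
    have hve0' := E0_sign (e := e) (h0.symm alt) (a := b) (b := a) (by rw [hab]; abel) ha alt
    refine ⟨low_zero_mk (a := 0) (b := 1) hev (alt e) ?_ hve0 (by module),
      low_zero_mk (a := 0) (b := 1) hev' (alt e) ?_ hve0' (by module), ?_⟩
    · rw [cont_self alt]; omega
    · rw [cont_self alt]; omega
    · have n1 := @Good.neg1 V X _ L.ov L.A L.ov_neg L.A_neg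
      have n2 := @Good.neg2 V X _ L.ov L.A L.symm L.ov_neg L.A_neg
      rcases ha with ha | ha <;> rcases hb with hb | hb
      · have := L.good_t0 alt h0
        rw [hab, ha, hb, one_smul, one_smul]
        exact this
      · have := n2 (L.good_t0 alt h0.neg_right)
        rw [neg_neg] at this
        rw [hab, ha, hb, one_smul, neg_smul, one_smul]
        exact this
      · have := n1 (L.good_t0 alt h0.neg_left)
        rw [neg_neg] at this
        rw [hab, ha, hb, one_smul, neg_smul, one_smul]
        exact this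
      · have := n1 (n2 (L.good_t0 alt h0.neg_left.neg_right))
        rw [neg_neg, neg_neg] at this
        rw [hab, ha, hb, neg_smul, neg_smul, one_smul, one_smul]
        exact this

end Pool.Agent.Torelli.D
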