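import Pool.Agent.Torelli.D.Graph

/-!
# Torelli project, part D: vectors of positive height
-/

namespace Pool.Agent.Torelli.D

variable {V X : Type*} [AddCommGroup V] {om : V →+ V →+ ℤ}

theorem step_symm (alt : ∀ v, om v v = 0) (L : LiftData0 om X) (e v : V) :
    ∀ w w', Step L.ov L.A (Ed om e) (lev om e) v w w' →
      Step L.ov L.A (Ed om e) (lev om e) v w' w := by
  rintro w w' ⟨h1, h2, h3 | h3⟩
  · exact ⟨h2, h1, Or.inl ⟨h3.1.symm alt, Good.swap23 (ov := L.ov) (A := L.A) L.symm h3.2⟩⟩
  · exact ⟨h2, h1, Or.inr (by rw [h3, neg_neg])⟩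

theorem low_pos_E1 {e v w : V} (hv : om e v ≠ 0) (h : E1 om v w) (hlt : |om e w| < |om e v|) :
    Low (Ed om e) (lev om e) v w :=
  ⟨Or.inl h, (lev_lt_pos hv).mpr hlt⟩

theorem low_pos_E0 {e v w : V} (hv : om e v ≠ 0) (h : E0 om v w) (hlt : |om e w| < |om e v|) :
    Low (Ed om e) (lev om e) v w :=
  ⟨Or.inr ⟨h, Or.inl (ne_of_gt hlt)⟩, (lev_lt_pos hv).mpr hlt⟩

/-- M1 at positive height -/
theorem M1_pos (alt : ∀ v, om v v = 0) {e v : V} (hv : prim om v) (hev : om e v ≠ 0) :
    ∃ w, Low (Ed om e) (lev om e) v w := by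
  obtain ⟨w0, hw0⟩ := hv
  obtain ⟨k, hk⟩ := exists_shift e v hev w0
  refine ⟨w0 + k • v, low_pos_E1 hev (Or.inl ?_) hk⟩
  rw [om_add_right, om_smul_right, hw0, alt]; ring

/-- a low hyperbolic neighbour is joined to a low isotropic one. -/
theorem join_E1 (alt : ∀ v, om v v = 0) (U : Unim om)
    (hG : ∀ u v, om u v = 1 → ∃ w, prim om w ∧ om u w = 0 ∧ om v w = 0)
    (L : LiftData0 om X) {e v u : V} (hev : om e v ≠ 0)
    (hvu : E1 om v u) (hlt : |om e u| < |om e v|) :
    ∃ w, E0 om v w ∧ |om e w| < |om e v| ∧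
      Step L.ov L.A (Ed om e) (lev om e) v u w := by
  have hsq : om v u * om v u = 1 := by
    rcases hvu with h | h <;> rw [h] <;> norm_num
  have huv : om u v = - om v u := om_swap alt u v
  set a := om v u * om e u with ha
  set b := -(om v u * om e v) with hb
  -- the projection of `e`
  obtain ⟨w, c, hw, hvw, huw, hec⟩ : ∃ (w : V) (c : ℤ), prim om w ∧ om v w = 0 ∧ om u w = 0 ∧
      e = a • v + b • u + c • w := by
    by_cases h0 : e - a • v - b • u = 0
    · obtain ⟨w, hw, h1, h2⟩ : ∃ w, prim om w ∧ om v w = 0 ∧ om u w = 0 := by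
        rcases hvu with h | h
        · exact hG v u h
        · obtain ⟨w, hw, h1, h2⟩ := hG u v (by rw [huv, h]; norm_num)
          exact ⟨w, hw, h2, h1⟩
      refine ⟨w, 0, hw, h1, h2, ?_⟩
      have : e = a • v + b • u := by
        have h3 : e - (a • v + b • u) = 0 := by rw [← h0]; abel
        exact sub_eq_zero.mp h3
      rw [zero_smul, add_zero]
      exact this
    · obtain ⟨c, w, hc, hw, hwp⟩ := U.content h0
      refine ⟨w, c, hwp, ?_, ?_, ?_⟩
      · have : c * om v w = 0 := by
          rw [← om_smul_right, ← hw]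
          simp only [om_sub_right, om_smul_right, alt]
          rw [om_swap alt v e, hb]
          linear_combination (om e v) * hsq
        exact (mul_eq_zero.mp this).resolve_left hc
      · have : c * om u w = 0 := by
          rw [← om_smul_right, ← hw]
          simp only [om_sub_right, om_smul_right, alt, huv]
          rw [om_swap alt u e, ha]
          linear_combination (om e u) * hsq
        exact (mul_eq_zero.mp this).resolve_left hc
      · rw [← hw]; abel
  have hew : om e w = 0 := by
    rw [hec]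
    simp only [om_add_left, om_smul_left, hvw, huw, alt]
    ring
  have hE0v : E0 om v w := E0.of_E1 alt hvu hvw huw hw
  have hE0u : E0 om u w := E0.of_E1 alt (hvu.symm alt) huw hvw hw
  have hpos : |om e w| < |om e v| := by
    rw [hew, abs_zero]
    exact abs_pos.mpr hev
  refine ⟨w, hE0v, hpos, low_pos_E1 hev hvu hlt, low_pos_E0 hev hE0v hpos, Or.inl ⟨?_,
    L.good_t2 alt hvu hvw huw hw⟩⟩
  refine Or.inr ⟨hE0u, ?_⟩
  by_cases heu : om e u = 0
  · refine Or.inr ⟨heu, hew, b, c, ?_⟩
    have ha0 : a = 0 := by rw [ha, heu, mul_zero]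
    rw [ha0, zero_smul, zero_add] at hec
    exact hec
  · refine Or.inl ?_
    rw [hew, abs_zero]
    exact fun h => heu (abs_eq_zero.mp h)

/-- connecting low isotropic neighbours -/
theorem join_E0 (alt : ∀ v, om v v = 0) (L : LiftData0 om X) {e v t t' : V}
    (hv : prim om v) (hev : om e v ≠ 0) (ht : E0 om v t) (hlt : |om e t| < |om e v|)
    (ht' : E0 om v t') (hlt' : |om e t'| < |om e v|) :
    Relation.ReflTransGen (Step L.ov L.A (Ed om e) (lev om e) v) t t' := by
  set W : AddSubgroup V := (om v).ker with hW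
  have memW : ∀ x, x ∈ W ↔ om v x = 0 := fun x => AddMonoidHom.mem_ker
  have htW := (E0_iff alt hv).mp ht
  have htW' := (E0_iff alt hv).mp ht'
  -- one step
  have step : ∀ s s' : V, s ∈ W → s' ∈ W → E1 om s s' → |om e s| < |om e v| →
      |om e s'| < |om e v| → Step L.ov L.A (Ed om e) (lev om e) v s s' := by
    intro s s' hs hs' hss h1 h2
    rw [memW] at hs hs'
    have hsv : om s v = 0 := by rw [om_swap alt, hs, neg_zero]
    have hsv' : om s' v = 0 := by rw [om_swap alt, hs', neg_zero]
    have e1 : E0 om v s := (E0.of_E1 alt hss hsv hsv' hv).symm alt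
    have e2 : E0 om v s' := (E0.of_E1 alt (hss.symm alt) hsv' hsv hv).symm alt
    refine ⟨low_pos_E0 hev e1 h1, low_pos_E0 hev e2 h2, Or.inl ⟨Or.inl hss, ?_⟩⟩
    exact Good.swap12 (ov := L.ov) (A := L.A) L.symm
      (Good.swap23 (ov := L.ov) (A := L.A) L.symm (L.good_t2 alt hss hsv hsv' hv))
  have hvW : v ∈ W := (memW v).mpr (alt v)
  have hvr : ∀ x y : V, x ∈ W → y ∈ W → E1 om x y → ∀ k l : ℤ,
      E1 om (x + k • v) (y + l • v) := by
    intro x y hx hy hxy k l
    rw [memW] at hx hy
    have hxv : om x v = 0 := by rw [om_swap alt, hx, neg_zero]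
    unfold E1 at *
    simp only [om_add_left, om_add_right, om_smul_left, om_smul_right, alt, hy, hxv]
    simpa using hxy
  have addW : ∀ x : V, x ∈ W → ∀ k : ℤ, x + k • v ∈ W := fun x hx k =>
    W.add_mem hx (W.zsmul_mem hvW k)
  -- the path
  have key : ∀ c, Relation.ReflTransGen (E1In om W) t c → ∀ k : ℤ, |om e (c + k • v)| < |om e v| →
      Relation.ReflTransGen (Step L.ov L.A (Ed om e) (lev om e) v) t (c + k • v) := by
    intro c hc
    induction hc with
    | refl =>
      intro k hk
      obtain ⟨z, hz, htz⟩ := htW.2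
      have hzW : z ∈ W := (memW z).mpr hz
      have htW0 : t ∈ W := (memW t).mpr htW.1
      have htz' : E1 om t z := Or.inl htz
      obtain ⟨l, hl⟩ := exists_shift e v hev z
      have h1 := step t (z + l • v) htW0 (addW z hzW l) (by
        have := hvr t z htW0 hzW htz' 0 l
        rwa [zero_smul, add_zero] at this) hlt hl
      have h2 := step (z + l • v) (t + k • v) (addW z hzW l) (addW t htW0 k)
        ((hvr t z htW0 hzW htz' k l).symm alt) hl hk
      exact (Relation.ReflTransGen.single h1).tail h2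
    | @tail a b hab hbc ih =>
      intro k hk
      obtain ⟨l, hl⟩ := exists_shift e v hev a
      obtain ⟨ha, hb, hE⟩ := hbc
      exact (ih l hl).tail (step _ _ (addW a ha l) (addW b hb k) (hvr a b ha hb hE l k) hl hk)
  have hconn := conn alt W (v := t) (v' := t') ((memW t).mpr htW.1) ((memW t').mpr htW'.1)
    (by obtain ⟨z, hz, hz'⟩ := htW.2; exact ⟨z, (memW z).mpr hz, hz'⟩)
    (by obtain ⟨z, hz, hz'⟩ := htW'.2; exact ⟨z, (memW z).mpr hz, hz'⟩)
  have := key t' hconn 0 (by rwa [zero_smul, add_zero])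
  rwa [zero_smul, add_zero] at this

/-- M1' at positive height -/
theorem M1'_pos (alt : ∀ v, om v v = 0) (U : Unim om)
    (hG : ∀ u v, om u v = 1 → ∃ w, prim om w ∧ om u w = 0 ∧ om v w = 0)
    (L : LiftData0 om X) {e v : V} (hv : prim om v) (hev : om e v ≠ 0) {w w' : V}
    (hw : Low (Ed om e) (lev om e) v w) (hw' : Low (Ed om e) (lev om e) v w') :
    Relation.ReflTransGen (Step L.ov L.A (Ed om e) (lev om e) v) w w' := by
  have red : ∀ w, Low (Ed om e) (lev om e) v w → ∃ t, E0 om v t ∧ |om e t| < |om e v| ∧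
      Relation.ReflTransGen (Step L.ov L.A (Ed om e) (lev om e) v) w t := by
    rintro w ⟨h1, h2⟩
    rw [lev_lt_pos hev] at h2
    rcases h1 with h1 | h1
    · obtain ⟨t, h3, h4, h5⟩ := join_E1 alt U hG L hev h1 h2
      exact ⟨t, h3, h4, Relation.ReflTransGen.single h5⟩
    · exact ⟨w, h1.1, h2, Relation.ReflTransGen.refl⟩
  obtain ⟨t, h1, h2, h3⟩ := red w hw
  obtain ⟨t', h1', h2', h3'⟩ := red w' hw'
  have hsymm : ∀ {a b : V}, Relation.ReflTransGen (Step L.ov L.A (Ed om e) (lev om e) v) a b →
      Relation.ReflTransGen (Step L.ov L.A (Ed om e) (lev om e) v) b a := by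
    intro a b h
    induction h with
    | refl => exact Relation.ReflTransGen.refl
    | tail _ hbc ih => exact Relation.ReflTransGen.head (step_symm alt L e v _ _ hbc) ih
  exact (h3.trans (join_E0 alt L hv hev h1 h2 h1' h2')).trans (hsymm h3')

/-- M2 at positive height -/
theorem M2_pos (alt : ∀ v, om v v = 0)
    (hG : ∀ u v, om u v = 1 → ∃ w, prim om w ∧ om u w = 0 ∧ om v w = 0)
    (L : LiftData0 om X) {e v v' : V} (hev : om e v ≠ 0) (hE : Ed om e v v')
    (hlev : lev om e v = lev om e v') :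
    ∃ w, Low (Ed om e) (lev om e) v w ∧ Low (Ed om e) (lev om e) v' w ∧
      Good L.ov L.A v v' w := by
  obtain ⟨h1, -⟩ := lev_eq hlev
  have hev' : om e v' ≠ 0 := by omega
  have habs : |om e v| = |om e v'| := by
    rw [← Int.natCast_natAbs, ← Int.natCast_natAbs, h1]
  rcases hE with hE | ⟨-, hE | ⟨h, -⟩⟩
  · have key : ∀ v', om e v' ≠ 0 → E1 om v v' → om e v' = - om e v →
        ∃ w, Low (Ed om e) (lev om e) v w ∧ Low (Ed om e) (lev om e) v' w ∧
          Good L.ov L.A v v' w := by
      intro v' hev' hE h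
      have h0 : om e (v + v') = 0 := by rw [om_add_right, h]; ring
      refine ⟨v + v', low_pos_E1 hev ?_ ?_, low_pos_E1 hev' ?_ ?_, L.good_t1 alt hG hE⟩
      · unfold E1 at *
        rw [om_add_right, alt]
        omega
      · rw [h0, abs_zero]
        exact abs_pos.mpr hev
      · have := hE.symm alt
        unfold E1 at *
        rw [om_add_right, alt]
        omega
      · rw [h0, abs_zero]
        exact abs_pos.mpr hev'
    rcases abs_eq_abs.mp habs with h | h
    · obtain ⟨w, hw1, hw2, hw3⟩ := key (-v') (by rw [om_neg_right]; exact neg_ne_zero.mpr hev')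
        hE.neg_right (by rw [om_neg_right, h])
      refine ⟨w, hw1, ?_, ?_⟩
      · refine ⟨?_, ?_⟩
        · have := hw2.1.neg
          rwa [neg_neg] at this
        · have := hw2.2
          rwa [lev_neg] at this
      · have := Good.neg2 (ov := L.ov) (A := L.A) L.symm L.ov_neg L.A_neg hw3
        rwa [neg_neg] at this
    · exact key v' hev' hE (by rw [h, neg_neg])
  · exact absurd habs hE
  · exact absurd h hev

end Pool.Agent.Torelli.D
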