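import Pool.Agent.Torelli.D.Derive
import Pool.Agent.Torelli.D.Phase1
import Pool.Agent.Torelli.D.Phase2
import Pool.Agent.Torelli.D.One

/-!
# Torelli project, part D: existence and uniqueness of compatible sections
-/

namespace Pool.Agent.Torelli.D

variable {V X : Type*} [AddCommGroup V] {om : V →+ V →+ ℤ}

theorem unim_of_div (Div : ∀ x : V, x ≠ 0 → ∃ (c : ℤ) (y : V), x = c • y ∧ prim om y) :
    Unim om := by
  intro x c hc
  by_cases hx : x = 0
  · exact ⟨0, by rw [hx, smul_zero]⟩
  · obtain ⟨m, y, hy, z, hz⟩ := Div x hx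
    have h1 : om x z = m := by rw [hy, om_smul_left, hz, mul_one]
    obtain ⟨k, hk⟩ := hc z
    refine ⟨k • y, ?_⟩
    rw [hy, smul_smul, ← hk, h1]

/-- the section when there is room for a third orthogonal vector -/
theorem section_big (alt : ∀ v, om v v = 0) (U : Unim om)
    (hG : ∀ u v, om u v = 1 → ∃ w, prim om w ∧ om u w = 0 ∧ om v w = 0)
    (L : LiftData om X) {e : V} (he : prim om e) {x0 : X} (hx : L.ov x0 e) :
    ∃ σ : V → X, σ e = x0 ∧ (∀ v, prim om v → L.ov (σ v) v ∧ σ (-v) = σ v) ∧
      ∀ v w, E1 om v w → L.adj (σ v) (σ w) := by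
  set L0 := L.ext alt with hL0
  obtain ⟨σ, s1, s2, s3, s4⟩ := exists_section (P := prim om) (B := fun v => v = e ∨ v = -e)
    L0.ov L0.A (Ed om e) (lev om e) x0 (fun v w x y h => L0.symm h) (fun v w x y h => L0.A_neg h)
    (fun x v h => L0.ov_neg h) (fun v w h => h.symm alt) (fun v w h => h.prim)
    (fun v w h => h.neg) (fun v h => h.neg) (fun v => lev_neg e v)
    (fun x v w h h' => L0.lift h (h'.base alt))
    (by
      rintro v (h | h)
      · rw [h]; exact hx
      · rw [h]; exact L.ov_neg hx)
    (by
      rintro v (h | h)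
      · right; rw [h]
      · left; rw [h, neg_neg])
    (by
      rintro v w h ⟨-, h2⟩
      exact not_lev_lt_base alt h h2)
    (by
      intro v hv hb
      by_cases hev : om e v = 0
      · exact M1_zero alt U he hv hev (fun h => hb (Or.inl h)) (fun h => hb (Or.inr h))
      · exact M1_pos alt hv hev)
    (by
      intro v hv hb w w' hw hw'
      by_cases hev : om e v = 0
      · exact M1'_zero alt U L0 he hv hev hw hw'
      · exact M1'_pos alt U hG L0 hv hev hw hw')
    (by
      intro v v' hE hl
      by_cases hev : om e v = 0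
      · exact M2_zero alt L0 he hev hE hl
      · exact M2_pos alt hG L0 hev hE hl)
  refine ⟨σ, s1 e (Or.inl rfl), fun v hv => ⟨s2 v hv, s3 v hv⟩, ?_⟩
  intro v w hE
  exact (L.A_E1 hE).mp (s4 v w (Or.inl hE))

/-- **Theorem D**: existence of a compatible section over the primitive vectors. -/
theorem section_exists (alt : ∀ v, om v v = 0)
    (Div : ∀ x : V, x ≠ 0 → ∃ (c : ℤ) (y : V), x = c • y ∧ prim om y)
    (L : LiftData om X) {e : V} (he : prim om e) {x0 : X} (hx : L.ov x0 e) :
    ∃ σ : V → X, σ e = x0 ∧ (∀ v, prim om v → L.ov (σ v) v ∧ σ (-v) = σ v) ∧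
      ∀ v w, E1 om v w → L.adj (σ v) (σ w) := by
  by_cases hG : ∀ u v, om u v = 1 → ∃ w, prim om w ∧ om u w = 0 ∧ om v w = 0
  · exact section_big alt (unim_of_div Div) hG L he hx
  · push Not at hG
    obtain ⟨u, v, huv, hno⟩ := hG
    have hvu : om v u = -1 := by rw [om_swap alt, huv]
    have hdec : ∀ x, x = (om x v) • u - (om x u) • v := by
      intro x
      by_contra hne
      have hx' : x - (om x v) • u + (om x u) • v ≠ 0 := by
        intro h
        apply hne
        have h2 : x - ((om x v) • u - (om x u) • v) = 0 := by rw [← h]; abel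
        exact sub_eq_zero.mp h2
      obtain ⟨c, w, hw, hwp⟩ := Div _ hx'
      have hc : c ≠ 0 := by
        intro h
        rw [h, zero_smul] at hw
        exact hx' hw
      have h1 : om u w = 0 := by
        have : c * om u w = 0 := by
          rw [← om_smul_right, ← hw]
          simp only [om_add_right, om_sub_right, om_smul_right, alt, huv]
          rw [om_swap alt u x]; ring
        exact (mul_eq_zero.mp this).resolve_left hc
      have h2 : om v w = 0 := by
        have : c * om v w = 0 := by
          rw [← om_smul_right, ← hw]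
          simp only [om_add_right, om_sub_right, om_smul_right, alt, hvu]
          rw [om_swap alt v x]; ring
        exact (mul_eq_zero.mp this).resolve_left hc
      exact hno w hwp h1 h2
    have hom : ∀ x y, om x y = om x v * om u y - om x u * om v y := by
      intro x y
      conv_lhs => rw [hdec x]
      rw [om_sub_left, om_smul_left, om_smul_left]
    refine section_rank2 alt ?_ L he hx
    rintro v0 x ⟨z, hz⟩ h0
    refine ⟨om x z, ?_⟩
    -- coordinates
    set a := om v0 v with ha
    set b := om v0 u with hb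
    set p := om x v with hp
    set q := om x u with hq
    have hvz : om v z = - om z v := om_swap alt v z
    have huz : om u z = - om z u := om_swap alt u z
    have e1 : a * (- om z u) - b * (- om z v) = 1 := by
      rw [← hz, hom v0 z, hvz, huz]
    have e2 : a * (-q) - b * (-p) = 0 := by
      rw [← h0, hom v0 x, om_swap alt u x, om_swap alt v x]
    have e3 : om x z = p * (- om z u) - q * (- om z v) := by
      rw [hom x z, hvz, huz]
    rw [e3]
    conv_lhs => rw [hdec x]
    conv_rhs => rw [hdec v0]
    rw [← ha, ← hb, ← hp, ← hq, smul_sub, smul_smul, smul_smul]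
    congr 1
    · congr 1
      linear_combination (-p) * e1 + (om z v) * e2
    · congr 1
      linear_combination (-q) * e1 + (om z u) * e2

/-- **Uniqueness** of the compatible section. -/
theorem section_unique (alt : ∀ v, om v v = 0) (L : LiftData om X) {σ σ' : V → X}
    (h1 : ∀ v, prim om v → L.ov (σ v) v) (h1' : ∀ v, prim om v → L.ov (σ' v) v)
    (h2 : ∀ v w, E1 om v w → L.adj (σ v) (σ w)) (h2' : ∀ v w, E1 om v w → L.adj (σ' v) (σ' w))
    {v0 : V} (hv0 : prim om v0) (h0 : σ v0 = σ' v0) : ∀ v, prim om v → σ v = σ' v := by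
  intro v hv
  have hc := conn alt (⊤ : AddSubgroup V) (v := v0) (v' := v) trivial trivial
    (by obtain ⟨z, hz⟩ := hv0; exact ⟨z, trivial, hz⟩)
    (by obtain ⟨z, hz⟩ := hv; exact ⟨z, trivial, hz⟩)
  induction hc with
  | refl => exact h0
  | @tail a b hab hbc ih =>
    obtain ⟨-, -, hE⟩ := hbc
    have ha := ih hE.prim_left
    have e1 := h2 a b hE
    have e2 := h2' a b hE
    rw [← ha] at e2
    exact (L.lift (h1 a hE.prim_left) hE).unique ⟨h1 b (hE.prim_right alt), e1⟩
      ⟨h1' b (hE.prim_right alt), e2⟩

end Pool.Agent.Torelli.D
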